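import Mathlib

set_option autoImplicit false

open InnerProductSpace ContinuousLinearMap

namespace Pool.Agent.V1175.SE

variable {H K : Type*} [NormedAddCommGroup H] [InnerProductSpace ℂ H] [CompleteSpace H]
  [NormedAddCommGroup K] [InnerProductSpace ℂ K] [CompleteSpace K]

/-- `R` is a block projection of the *-algebra `A`. -/
structure Blk (A : StarSubalgebra ℂ (H →L[ℂ] H)) (R : H →L[ℂ] H) : Prop where
  sa : ∀ x y, inner ℂ (R x) y = inner ℂ x (R y)
  idem : ∀ x, R (R x) = R x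
  comm : ∀ a ∈ A, ∀ x, a (R x) = R (a x)
  r1 : ∀ x y, rankOne ℂ (R x) (R y) ∈ A

section

variable {A : StarSubalgebra ℂ (H →L[ℂ] H)} {B : StarSubalgebra ℂ (K →L[ℂ] K)}

lemma inner_star_apply (b : K →L[ℂ] K) (x y : K) : inner ℂ (b x) y = inner ℂ x (star b y) := by
  rw [star_eq_adjoint, adjoint_inner_right]

lemma inner_star_apply' (b : K →L[ℂ] K) (x y : K) : inner ℂ (star b x) y = inner ℂ x (b y) := by
  rw [star_eq_adjoint, adjoint_inner_left]

/-- images of minimal projections are rank one -/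
lemma min_proj (Φ : A ≃⋆ₐ[ℂ] B) {Q : K →L[ℂ] K} (hQ : Blk B Q) (hQ' : Blk B (1 - Q))
    (e : H) (he : ‖e‖ = 1) (hA : rankOne ℂ e e ∈ A) :
    ∃ f : K, ‖f‖ = 1 ∧ ((Φ ⟨rankOne ℂ e e, hA⟩ : B) : K →L[ℂ] K) = rankOne ℂ f f := by
  set p : A := ⟨rankOne ℂ e e, hA⟩ with hp
  set q : B := Φ p with hq
  have hpne : p ≠ 0 := by
    intro h
    have h1 : (rankOne ℂ e e : H →L[ℂ] H) = 0 := congrArg Subtype.val h
    have h2 := norm_rankOne (𝕜 := ℂ) e e
    rw [h1, he] at h2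
    norm_num at h2
  have hqne : q ≠ 0 := by
    intro h
    exact hpne ((map_eq_zero_iff Φ Φ.injective).1 h)
  have hpp : p * p = p := by
    apply Subtype.ext
    ext x
    change rankOne ℂ e e (rankOne ℂ e e x) = rankOne ℂ e e x
    simp only [rankOne_apply, inner_smul_right, inner_self_eq_norm_sq_to_K, he]
    simp
  have hps : star p = p := by
    apply Subtype.ext
    change star (rankOne ℂ e e) = rankOne ℂ e e
    rw [star_eq_adjoint, adjoint_rankOne]
  have hpap : ∀ a : A, p * a * p = (inner ℂ e ((a : H →L[ℂ] H) e) : ℂ) • p := by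
    intro a
    apply Subtype.ext
    ext x
    change rankOne ℂ e e ((a : H →L[ℂ] H) (rankOne ℂ e e x)) =
      (inner ℂ e ((a : H →L[ℂ] H) e) : ℂ) • rankOne ℂ e e x
    simp only [rankOne_apply, map_smul, inner_smul_right, smul_smul]
    rw [mul_comm]
  have hqq : q * q = q := by rw [hq, ← map_mul, hpp]
  have hqs : star q = q := by rw [hq, ← map_star, hps]
  have hqbq : ∀ b : B, ∃ l : ℂ, q * b * q = l • q := by
    intro b
    refine ⟨inner ℂ e (((Φ.symm b : A) : H →L[ℂ] H) e), ?_⟩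
    have := congrArg Φ (hpap (Φ.symm b))
    rw [map_mul, map_mul, map_smul, StarAlgEquiv.apply_symm_apply] at this
    exact this
  have hqK : ∀ x, (q : K →L[ℂ] K) ((q : K →L[ℂ] K) x) = (q : K →L[ℂ] K) x := by
    intro x
    have := congrArg (fun b : B => (b : K →L[ℂ] K) x) hqq
    exact this
  obtain ⟨k, hk⟩ : ∃ k, (q : K →L[ℂ] K) k ≠ 0 := by
    by_contra h
    push Not at h
    apply hqne
    apply Subtype.ext
    ext x
    exact h x
  set v := (q : K →L[ℂ] K) k with hv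
  -- a nonzero vector in the range of `q` and in a block
  obtain ⟨w, hw0, hqw, hwB⟩ : ∃ w : K, w ≠ 0 ∧ (q : K →L[ℂ] K) w = w ∧ rankOne ℂ w w ∈ B := by
    by_cases h : Q v = 0
    · refine ⟨(1 - Q) v, ?_, ?_, hQ'.r1 v v⟩
      · change v - Q v ≠ 0
        rw [h, sub_zero]; exact hk
      · rw [hQ'.comm _ q.2, hqK]
    · refine ⟨Q v, h, ?_, hQ.r1 v v⟩
      rw [hQ.comm _ q.2, hqK]
  obtain ⟨l, hl⟩ := hqbq ⟨rankOne ℂ w w, hwB⟩
  have hqadj : ∀ x y, inner ℂ ((q : K →L[ℂ] K) x) y = inner ℂ x ((q : K →L[ℂ] K) y) := by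
    intro x y
    rw [inner_star_apply]
    have : (star (q : K →L[ℂ] K)) = (q : K →L[ℂ] K) := congrArg Subtype.val hqs
    rw [this]
  have h1 : ∀ x, (inner ℂ w x : ℂ) • w = l • (q : K →L[ℂ] K) x := by
    intro x
    have h2 := congrArg (fun b : B => (b : K →L[ℂ] K) x) hl
    change (q : K →L[ℂ] K) (rankOne ℂ w w ((q : K →L[ℂ] K) x)) = l • (q : K →L[ℂ] K) x at h2
    rw [rankOne_apply, map_smul, hqw, ← hqadj, hqw] at h2
    exact h2
  have hwn : ‖w‖ ≠ 0 := norm_ne_zero_iff.2 hw0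
  have hl2 : l = ((‖w‖ : ℂ)) ^ 2 := by
    have h2 := h1 w
    rw [hqw, inner_self_eq_norm_sq_to_K] at h2
    exact (smul_left_injective ℂ hw0 h2).symm
  refine ⟨((‖w‖⁻¹ : ℝ) : ℂ) • w, ?_, ?_⟩
  · rw [norm_smul]
    simp [hwn]
  · ext x
    rw [rankOne_apply, inner_smul_left, smul_smul]
    have h2 := h1 x
    rw [hl2] at h2
    have hwc : (‖w‖ : ℂ) ≠ 0 := by exact_mod_cast hwn
    have h3 : (q : K →L[ℂ] K) x = ((‖w‖ : ℂ) ^ 2)⁻¹ • ((inner ℂ w x : ℂ) • w) := by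
      rw [h2, smul_smul, inv_mul_cancel₀ (pow_ne_zero 2 hwc), one_smul]
    rw [h3, smul_smul]
    congr 1
    simp only [Complex.conj_ofReal]
    push_cast
    field_simp

/-- the isometry on one block -/
lemma block_iso (Φ : A ≃⋆ₐ[ℂ] B) {Q : K →L[ℂ] K} (hQ : Blk B Q) (hQ' : Blk B (1 - Q))
    {R : H →L[ℂ] H} (hR : Blk A R) :
    ∃ (e : H) (f : K), R e = e ∧ ∀ (x y : H) (hx : rankOne ℂ (R x) e ∈ A)
      (hy : rankOne ℂ (R y) e ∈ A),
      inner ℂ (((Φ ⟨rankOne ℂ (R x) e, hx⟩ : B) : K →L[ℂ] K) f)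
        (((Φ ⟨rankOne ℂ (R y) e, hy⟩ : B) : K →L[ℂ] K) f) = (inner ℂ (R x) (R y) : ℂ) := by
  by_cases h : ∃ x, R x ≠ 0
  · obtain ⟨x0, hx0⟩ := h
    set e : H := ((‖R x0‖⁻¹ : ℝ) : ℂ) • R x0 with he
    have hen : ‖e‖ = 1 := by
      rw [he, norm_smul]
      have := norm_ne_zero_iff.2 hx0
      simp [this]
    have hRe : R e = e := by rw [he, map_smul, hR.idem]
    have hA : rankOne ℂ e e ∈ A := by
      have := hR.r1 e e
      rwa [hRe] at this
    obtain ⟨f, hf, hff⟩ := min_proj Φ hQ hQ' e hen hA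
    refine ⟨e, f, hRe, fun x y hx hy => ?_⟩
    rw [inner_star_apply]
    have h1 : (star ((Φ ⟨rankOne ℂ (R x) e, hx⟩ : B) : K →L[ℂ] K))
        (((Φ ⟨rankOne ℂ (R y) e, hy⟩ : B) : K →L[ℂ] K) f) =
        ((star (Φ ⟨rankOne ℂ (R x) e, hx⟩) * Φ ⟨rankOne ℂ (R y) e, hy⟩ : B) : K →L[ℂ] K) f := rfl
    rw [h1, ← map_star, ← map_mul]
    have h2 : (star (⟨rankOne ℂ (R x) e, hx⟩ : A) * ⟨rankOne ℂ (R y) e, hy⟩ : A) =
        (inner ℂ (R x) (R y) : ℂ) • (⟨rankOne ℂ e e, hA⟩ : A) := by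
      apply Subtype.ext
      ext z
      change star (rankOne ℂ (R x) e) (rankOne ℂ (R y) e z) =
        (inner ℂ (R x) (R y) : ℂ) • rankOne ℂ e e z
      rw [star_eq_adjoint, adjoint_rankOne]
      simp only [rankOne_apply, inner_smul_right, smul_smul]
      rw [mul_comm]
    rw [h2, map_smul]
    change inner ℂ f ((inner ℂ (R x) (R y) : ℂ) •
      ((Φ ⟨rankOne ℂ e e, hA⟩ : B) : K →L[ℂ] K) f) = _
    rw [hff, rankOne_apply, inner_self_eq_norm_sq_to_K, hf]
    simp only [inner_smul_right, inner_self_eq_norm_sq_to_K, hf]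
    simp
  · push Not at h
    refine ⟨0, 0, map_zero _, fun x y hx hy => ?_⟩
    have e1 : ((Φ ⟨rankOne ℂ (R x) 0, hx⟩ : B) : K →L[ℂ] K) 0 = 0 :=
      ContinuousLinearMap.map_zero _
    rw [e1, inner_zero_left, h x, inner_zero_left]

/-- **Isomorphisms of *-algebras with two blocks full of rank one operators are spatial.** -/
theorem spatial (Φ : A ≃⋆ₐ[ℂ] B) {P : H →L[ℂ] H} {Q : K →L[ℂ] K}
    (hP : Blk A P) (hP' : Blk A (1 - P)) (hQ : Blk B Q) (hQ' : Blk B (1 - Q)) :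
    ∃ U : H ≃ₗᵢ[ℂ] K, ∀ (a : A) (x : H),
      ((Φ a : B) : K →L[ℂ] K) (U x) = U ((a : H →L[ℂ] H) x) := by
  obtain ⟨e1, f1, he1, h1⟩ := block_iso Φ hQ hQ' hP
  obtain ⟨e2, f2, he2, h2⟩ := block_iso Φ hQ hQ' hP'
  have m1 : ∀ x, rankOne ℂ (P x) e1 ∈ A := fun x => by
    have := hP.r1 x e1
    rwa [he1] at this
  have m2 : ∀ x, rankOne ℂ ((1 - P) x) e2 ∈ A := fun x => by
    have := hP'.r1 x e2
    rwa [he2] at this
  let T1 : H →ₗ[ℂ] K :=
    { toFun := fun x => ((Φ ⟨rankOne ℂ (P x) e1, m1 x⟩ : B) : K →L[ℂ] K) f1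
      map_add' := fun x y => by
        have : (⟨rankOne ℂ (P (x + y)) e1, m1 (x + y)⟩ : A) =
            ⟨rankOne ℂ (P x) e1, m1 x⟩ + ⟨rankOne ℂ (P y) e1, m1 y⟩ := by
          apply Subtype.ext
          change rankOne ℂ (P (x + y)) e1 = rankOne ℂ (P x) e1 + rankOne ℂ (P y) e1
          rw [map_add, map_add]; rfl
        rw [this, map_add]; rfl
      map_smul' := fun c x => by
        have : (⟨rankOne ℂ (P (c • x)) e1, m1 (c • x)⟩ : A) =
            c • ⟨rankOne ℂ (P x) e1, m1 x⟩ := by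
          apply Subtype.ext
          change rankOne ℂ (P (c • x)) e1 = c • rankOne ℂ (P x) e1
          rw [map_smul, map_smul]; rfl
        rw [this, map_smul]; rfl }
  let T2 : H →ₗ[ℂ] K :=
    { toFun := fun x => ((Φ ⟨rankOne ℂ ((1 - P) x) e2, m2 x⟩ : B) : K →L[ℂ] K) f2
      map_add' := fun x y => by
        have : (⟨rankOne ℂ ((1 - P) (x + y)) e2, m2 (x + y)⟩ : A) =
            ⟨rankOne ℂ ((1 - P) x) e2, m2 x⟩ + ⟨rankOne ℂ ((1 - P) y) e2, m2 y⟩ := by
          apply Subtype.ext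
          change rankOne ℂ ((1 - P) (x + y)) e2 =
            rankOne ℂ ((1 - P) x) e2 + rankOne ℂ ((1 - P) y) e2
          rw [map_add, map_add]; rfl
        rw [this, map_add]; rfl
      map_smul' := fun c x => by
        have : (⟨rankOne ℂ ((1 - P) (c • x)) e2, m2 (c • x)⟩ : A) =
            c • ⟨rankOne ℂ ((1 - P) x) e2, m2 x⟩ := by
          apply Subtype.ext
          change rankOne ℂ ((1 - P) (c • x)) e2 = c • rankOne ℂ ((1 - P) x) e2
          rw [map_smul, map_smul]; rfl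
        rw [this, map_smul]; rfl }
  have hort : ∀ x y, inner ℂ (P x) ((1 - P) y) = (0 : ℂ) := by
    intro x y
    rw [hP.sa]
    change inner ℂ x (P (y - P y)) = (0 : ℂ)
    rw [map_sub, hP.idem, sub_self, inner_zero_right]
  have hcross : ∀ x y, inner ℂ (T1 x) (T2 y) = (0 : ℂ) := by
    intro x y
    change inner ℂ (((Φ ⟨rankOne ℂ (P x) e1, m1 x⟩ : B) : K →L[ℂ] K) f1)
      (((Φ ⟨rankOne ℂ ((1 - P) y) e2, m2 y⟩ : B) : K →L[ℂ] K) f2) = (0 : ℂ)
    rw [inner_star_apply]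
    have h3 : (star ((Φ ⟨rankOne ℂ (P x) e1, m1 x⟩ : B) : K →L[ℂ] K))
        (((Φ ⟨rankOne ℂ ((1 - P) y) e2, m2 y⟩ : B) : K →L[ℂ] K) f2) =
        ((star (Φ ⟨rankOne ℂ (P x) e1, m1 x⟩) * Φ ⟨rankOne ℂ ((1 - P) y) e2, m2 y⟩ : B) :
          K →L[ℂ] K) f2 := rfl
    rw [h3, ← map_star, ← map_mul]
    have h4 : (star (⟨rankOne ℂ (P x) e1, m1 x⟩ : A) * ⟨rankOne ℂ ((1 - P) y) e2, m2 y⟩ : A) =
        0 := by
      apply Subtype.ext
      ext z
      change star (rankOne ℂ (P x) e1) (rankOne ℂ ((1 - P) y) e2 z) = 0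
      rw [star_eq_adjoint, adjoint_rankOne]
      simp only [rankOne_apply, inner_smul_right, hort, mul_zero, zero_smul]
    rw [h4, map_zero]
    change inner ℂ f1 (0 : K) = (0 : ℂ)
    rw [inner_zero_right]
  have hn1 : ∀ x, ‖T1 x‖ = ‖P x‖ := by
    intro x
    have h3 := h1 x x (m1 x) (m1 x)
    have h5 : ‖T1 x‖ ^ 2 = ‖P x‖ ^ 2 := by
      rw [← inner_self_eq_norm_sq (𝕜 := ℂ), ← inner_self_eq_norm_sq (𝕜 := ℂ)]
      exact congrArg RCLike.re h3
    exact (sq_eq_sq₀ (norm_nonneg _) (norm_nonneg _)).1 h5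
  have hn2 : ∀ x, ‖T2 x‖ = ‖(1 - P) x‖ := by
    intro x
    have h3 := h2 x x (m2 x) (m2 x)
    have h5 : ‖T2 x‖ ^ 2 = ‖(1 - P) x‖ ^ 2 := by
      rw [← inner_self_eq_norm_sq (𝕜 := ℂ), ← inner_self_eq_norm_sq (𝕜 := ℂ)]
      exact congrArg RCLike.re h3
    exact (sq_eq_sq₀ (norm_nonneg _) (norm_nonneg _)).1 h5
  have hnorm : ∀ x, ‖(T1 + T2) x‖ = ‖x‖ := by
    intro x
    have h3 : ‖T1 x + T2 x‖ * ‖T1 x + T2 x‖ = ‖T1 x‖ * ‖T1 x‖ + ‖T2 x‖ * ‖T2 x‖ :=
      norm_add_sq_eq_norm_sq_add_norm_sq_of_inner_eq_zero (𝕜 := ℂ) _ _ (hcross x x)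
    have h4 : ‖P x + (1 - P) x‖ * ‖P x + (1 - P) x‖ =
        ‖P x‖ * ‖P x‖ + ‖(1 - P) x‖ * ‖(1 - P) x‖ :=
      norm_add_sq_eq_norm_sq_add_norm_sq_of_inner_eq_zero (𝕜 := ℂ) _ _ (hort x x)
    have h5 : P x + (1 - P) x = x := by
      change P x + (x - P x) = x
      abel
    rw [h5] at h4
    rw [hn1, hn2, ← h4] at h3
    change ‖T1 x + T2 x‖ = ‖x‖
    nlinarith [norm_nonneg (T1 x + T2 x), norm_nonneg x,
      mul_self_inj_of_nonneg (norm_nonneg (T1 x + T2 x)) (norm_nonneg x)]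
  let U0 : H →ₗᵢ[ℂ] K := ⟨T1 + T2, hnorm⟩
  have hint : ∀ (a : A) (x : H), ((Φ a : B) : K →L[ℂ] K) (U0 x) = U0 ((a : H →L[ℂ] H) x) := by
    intro a x
    change ((Φ a : B) : K →L[ℂ] K)
      (((Φ ⟨rankOne ℂ (P x) e1, m1 x⟩ : B) : K →L[ℂ] K) f1 +
      ((Φ ⟨rankOne ℂ ((1 - P) x) e2, m2 x⟩ : B) : K →L[ℂ] K) f2) =
      ((Φ ⟨rankOne ℂ (P ((a : H →L[ℂ] H) x)) e1, m1 _⟩ : B) : K →L[ℂ] K) f1 +
      ((Φ ⟨rankOne ℂ ((1 - P) ((a : H →L[ℂ] H) x)) e2, m2 _⟩ : B) : K →L[ℂ] K) f2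
    rw [map_add]
    congr 1
    · have h3 : (⟨rankOne ℂ (P ((a : H →L[ℂ] H) x)) e1, m1 _⟩ : A) =
          a * ⟨rankOne ℂ (P x) e1, m1 x⟩ := by
        apply Subtype.ext
        ext z
        change rankOne ℂ (P ((a : H →L[ℂ] H) x)) e1 z =
          (a : H →L[ℂ] H) (rankOne ℂ (P x) e1 z)
        rw [rankOne_apply, rankOne_apply, map_smul, hP.comm _ a.2]
      rw [h3, map_mul]; rfl
    · have h3 : (⟨rankOne ℂ ((1 - P) ((a : H →L[ℂ] H) x)) e2, m2 _⟩ : A) =
          a * ⟨rankOne ℂ ((1 - P) x) e2, m2 x⟩ := by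
        apply Subtype.ext
        ext z
        change rankOne ℂ ((1 - P) ((a : H →L[ℂ] H) x)) e2 z =
          (a : H →L[ℂ] H) (rankOne ℂ ((1 - P) x) e2 z)
        rw [rankOne_apply, rankOne_apply, map_smul, hP'.comm _ a.2]
      rw [h3, map_mul]; rfl
  have hsurj : Function.Surjective U0 := by
    have hcl : IsClosed (Set.range U0) := U0.isometry.isClosedEmbedding.isClosed_range
    let L : Submodule ℂ K := LinearMap.range U0.toLinearMap
    have hLcl : IsClosed (L : Set K) := by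
      have : (L : Set K) = Set.range U0 := rfl
      rw [this]; exact hcl
    have : CompleteSpace L := hLcl.completeSpace_coe
    have hbot : Lᗮ = ⊥ := by
      rw [Submodule.eq_bot_iff]
      intro y hy
      rw [Submodule.mem_orthogonal'] at hy
      have hyU : ∀ x, inner ℂ y (U0 x) = (0 : ℂ) := fun x => hy _ ⟨x, rfl⟩
      -- both components vanish
      have hz : ∀ z : K, rankOne ℂ z z ∈ B → (inner ℂ z y : ℂ) = inner ℂ z z → z = 0 := by
        intro z hzB hzy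
        by_contra hz0
        set b : B := ⟨rankOne ℂ z z, hzB⟩ with hb
        have h3 : ∀ x, inner ℂ z (U0 x) = (0 : ℂ) := by
          intro x
          have h4 : inner ℂ y ((b : K →L[ℂ] K) (U0 x)) = (0 : ℂ) := by
            have h5 := hint (Φ.symm b) x
            rw [StarAlgEquiv.apply_symm_apply] at h5
            rw [h5]
            exact hyU _
          change inner ℂ y (rankOne ℂ z z (U0 x)) = (0 : ℂ) at h4
          rw [rankOne_apply, inner_smul_right] at h4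
          rcases mul_eq_zero.1 h4 with h | h
          · exact h
          · exfalso
            rw [← inner_conj_symm, hzy, inner_conj_symm] at h
            exact hz0 (inner_self_eq_zero.1 h)
        have h4 : Φ.symm b = 0 := by
          apply Subtype.ext
          ext x
          have h5 := hint (Φ.symm b) x
          rw [StarAlgEquiv.apply_symm_apply] at h5
          have h6 : (b : K →L[ℂ] K) (U0 x) = 0 := by
            change rankOne ℂ z z (U0 x) = 0
            rw [rankOne_apply, h3, zero_smul]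
          rw [h6] at h5
          have h7 : ‖((Φ.symm b : A) : H →L[ℂ] H) x‖ = 0 := by
            rw [← U0.norm_map, ← h5, norm_zero]
          exact norm_eq_zero.1 h7
        have h5 : b = 0 := by
          have := congrArg Φ h4
          rwa [StarAlgEquiv.apply_symm_apply, map_zero] at this
        have h6 : (rankOne ℂ z z : K →L[ℂ] K) = 0 := congrArg Subtype.val h5
        have h7 := norm_rankOne (𝕜 := ℂ) z z
        rw [h6, norm_zero] at h7
        have h8 : ‖z‖ = 0 := by nlinarith [norm_nonneg z]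
        exact hz0 (norm_eq_zero.1 h8)
      have hy1 : Q y = 0 := by
        refine hz _ (hQ.r1 y y) ?_
        rw [hQ.sa, hQ.sa, hQ.idem]
      have hy2 : (1 - Q) y = 0 := by
        refine hz _ (hQ'.r1 y y) ?_
        rw [hQ'.sa, hQ'.sa, hQ'.idem]
      have h3 : y = Q y + (1 - Q) y := by
        change y = Q y + (y - Q y)
        abel
      rw [h3, hy1, hy2, add_zero]
    have htop : L = ⊤ := by
      rwa [Submodule.orthogonal_eq_bot_iff] at hbot
    intro y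
    have : y ∈ L := by rw [htop]; exact Submodule.mem_top
    exact this
  exact ⟨LinearIsometryEquiv.ofSurjective U0 hsurj, fun a x => hint a x⟩

end

end Pool.Agent.V1175.SE
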