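import Pool.Agent.V1175.SE.Alg

set_option autoImplicit false

open scoped ENNReal NNReal
open MeasureTheory ContinuousLinearMap

namespace Pool.Agent.V1175.SE

/-- The Hilbert space `L²(X, μ)` of complex functions. -/
def HSp {X : Type*} [MeasurableSpace X] (μ : Measure X) : Type _ := Lp ℂ 2 μ

noncomputable instance {X : Type*} [MeasurableSpace X] (μ : Measure X) :
    NormedAddCommGroup (HSp μ) := inferInstanceAs (NormedAddCommGroup (Lp ℂ 2 μ))

noncomputable instance {X : Type*} [MeasurableSpace X] (μ : Measure X) :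
    InnerProductSpace ℂ (HSp μ) := inferInstanceAs (InnerProductSpace ℂ (Lp ℂ 2 μ))

instance {X : Type*} [MeasurableSpace X] (μ : Measure X) :
    CompleteSpace (HSp μ) := inferInstanceAs (CompleteSpace (Lp ℂ 2 μ))

/-- The bounded operators on `L²(X, μ)`. -/
abbrev Op {X : Type*} [MeasurableSpace X] (μ : Measure X) : Type _ := HSp μ →L[ℂ] HSp μ

/-- A function representing the class `ξ ∈ L²(X, μ)`. -/
noncomputable def repr {X : Type*} [MeasurableSpace X] {μ : Measure X} (ξ : HSp μ) : X → ℂ :=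
  (show Lp ℂ 2 μ from ξ : Lp ℂ 2 μ)

/-- The measure of the support of `ξ ∈ L²(X, μ)`. -/
noncomputable def suppMeas {X : Type*} [MeasurableSpace X] {μ : Measure X} (ξ : HSp μ) : ℝ≥0∞ :=
  μ {x | repr ξ x ≠ 0}

/-- The adjoint `a*` of an operator on `L²(X, μ)`. -/
noncomputable def adj {X : Type*} [MeasurableSpace X] {μ : Measure X} (a : Op μ) : Op μ := star a

/-- `μ(supp (a ξ)) ≤ c μ(supp ξ)` for every `ξ ∈ L²(X, μ)`. -/
def Expands {X : Type*} [MeasurableSpace X] {μ : Measure X} (c : ℝ≥0) (a : Op μ) : Prop :=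
  ∀ ξ : HSp μ, suppMeas (a ξ) ≤ c * suppMeas ξ

/-- The operator `a` on `L²(X, μ)` has support expansion at most `c`: for every `ξ ∈ L²(X, μ)`,
`μ(supp (a ξ)) ≤ c μ(supp ξ)` and `μ(supp (a* ξ)) ≤ c μ(supp ξ)`. -/
def HasExpansion {X : Type*} [MeasurableSpace X] {μ : Measure X} (c : ℝ≥0) (a : Op μ) : Prop :=
  Expands c a ∧ Expands c (adj a)

/-- The C*-algebra `C*_u(X, V_μ)`: the norm closure of the operators of bounded support
expansion. -/
def CstarU {X : Type*} [MeasurableSpace X] (μ : Measure X) : Set (Op μ) :=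
  closure {a | ∃ c : ℝ≥0, HasExpansion c a}

/-- `C*_u(X, V_μ)` contains every compact operator on `L²(X, μ)`. -/
def AllCompact {X : Type*} [MeasurableSpace X] (μ : Measure X) : Prop :=
  ∀ T : Op μ, IsCompactOperator T → T ∈ CstarU μ

/-- `C*_u(X, V_μ)` contains a non-zero compact operator on `L²(X, μ)`. -/
def SomeCompact {X : Type*} [MeasurableSpace X] (μ : Measure X) : Prop :=
  ∃ T : Op μ, T ≠ 0 ∧ IsCompactOperator T ∧ T ∈ CstarU μ

lemma hasExpansion_iff {X : Type*} [MeasurableSpace X] {μ : Measure X}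
    (a : Op μ) : (∃ c : ℝ≥0, HasExpansion c a) ↔
      Bs (show Lp ℂ 2 μ →L[ℂ] Lp ℂ 2 μ from a) := by
  constructor
  · rintro ⟨c, h⟩
    exact ⟨c, h.1, h.2⟩
  · rintro ⟨c, h1, h2⟩
    exact ⟨c, h1, h2⟩

lemma CstarU_eq {X : Type*} [MeasurableSpace X] (μ : Measure X) :
    CstarU μ = closure {a : Lp ℂ 2 μ →L[ℂ] Lp ℂ 2 μ | Bs a} := by
  have : {a : Op μ | ∃ c : ℝ≥0, HasExpansion c a} =
      {a : Lp ℂ 2 μ →L[ℂ] Lp ℂ 2 μ | Bs a} := by
    ext a
    exact hasExpansion_iff a
  unfold CstarU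
  rw [this]
  rfl

end Pool.Agent.V1175.SE
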