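import Pool.Agent.V1175.SE.Final
import Pool.Agent.V1175.SE.Spatial
import Pool.Agent.V1175.SE.Statement

set_option autoImplicit false

open scoped ENNReal NNReal
open MeasureTheory InnerProductSpace Filter Topology ContinuousLinearMap

namespace Pool.Agent.V1175.SE

attribute [local instance] instMeasureSpaceUnitAddCircle haarInst probInst

section gen

variable {H : Type*} [NormedAddCommGroup H] [InnerProductSpace ℂ H] [CompleteSpace H]

lemma rankOne_mem_of_closure (S : Submodule ℂ (H →L[ℂ] H))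
    (hcl : IsClosed (S : Set (H →L[ℂ] H))) (E : Set H)
    (hS : ∀ e ∈ E, ∀ e' ∈ E, rankOne ℂ e e' ∈ S) (x y : H)
    (hx : x ∈ (Submodule.span ℂ E).topologicalClosure)
    (hy : y ∈ (Submodule.span ℂ E).topologicalClosure) : rankOne ℂ x y ∈ S := by
  have h1 : ∀ e' ∈ E, rankOne ℂ x e' ∈ S := by
    intro e' he'
    let L : Submodule ℂ H :=
      { carrier := {x | rankOne ℂ x e' ∈ S}
        add_mem' := fun {a b} ha hb => by
          change rankOne ℂ (a + b) e' ∈ S
          rw [map_add]; exact S.add_mem ha hb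
        zero_mem' := by
          change rankOne ℂ (0 : H) e' ∈ S
          rw [map_zero]; exact S.zero_mem
        smul_mem' := fun c a ha => by
          change rankOne ℂ (c • a) e' ∈ S
          rw [map_smul]; exact S.smul_mem _ ha }
    have hL : IsClosed (L : Set H) := by
      have : (L : Set H) = (fun f : H => rankOne ℂ f e') ⁻¹' S := rfl
      rw [this]
      exact hcl.preimage (ContinuousLinearMap.smulRightL ℂ H H (innerSL ℂ e')).continuous
    have h2 : (Submodule.span ℂ E).topologicalClosure ≤ L :=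
      Submodule.topologicalClosure_minimal _ (Submodule.span_le.2 fun e he => hS e he e' he') hL
    exact h2 hx
  let L : Submodule ℂ H :=
    { carrier := {y | rankOne ℂ x y ∈ S}
      add_mem' := fun {a b} ha hb => by
        change rankOne ℂ x (a + b) ∈ S
        rw [map_add]; exact S.add_mem ha hb
      zero_mem' := by
        change rankOne ℂ x (0 : H) ∈ S
        rw [map_zero]; exact S.zero_mem
      smul_mem' := fun c a ha => by
        change rankOne ℂ x (c • a) ∈ S
        rw [map_smulₛₗ]; exact S.smul_mem _ ha }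
  have hL : IsClosed (L : Set H) := by
    have : (L : Set H) = (fun f : H => rankOne ℂ x f) ⁻¹' S := rfl
    rw [this]
    exact hcl.preimage (rankOne ℂ x).continuous
  have h2 : (Submodule.span ℂ E).topologicalClosure ≤ L :=
    Submodule.topologicalClosure_minimal _ (Submodule.span_le.2 fun e he => h1 e he) hL
  exact h2 hy

end gen

variable {X : Type*} [MeasurableSpace X] {μ : Measure X}

lemma EPK (S : Set X) : (μ.restrict S).map (id : X → X) ≤ ((1 : ℝ≥0) : ℝ≥0∞) • μ := by
  rw [Measure.map_id]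
  simpa using Measure.restrict_le_self

/-- multiplication by the indicator of `S` -/
noncomputable def EP (S : Set X) (hS : MeasurableSet S) : Lp ℂ 2 μ →L[ℂ] Lp ℂ 2 μ :=
  pb id S 1 measurable_id hS (EPK S)

lemma EP_coe (S : Set X) (hS : MeasurableSet S) (f : Lp ℂ 2 μ) :
    EP S hS f =ᵐ[μ] S.indicator f :=
  pb_coe _ _ _ _ _ _ _

lemma EP_idem (S : Set X) (hS : MeasurableSet S) (f : Lp ℂ 2 μ) :
    EP S hS (EP S hS f) = EP S hS f := by
  refine Lp.ext ?_
  filter_upwards [EP_coe S hS (EP S hS f), EP_coe S hS f] with x h1 h2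
  rw [h1]
  by_cases h : x ∈ S
  · rw [Set.indicator_of_mem h]
  · rw [Set.indicator_of_notMem h, h2, Set.indicator_of_notMem h]

lemma EP_inner (S : Set X) (hS : MeasurableSet S) (f g : Lp ℂ 2 μ) :
    inner ℂ (EP S hS f) g = (inner ℂ f (EP S hS g) : ℂ) := by
  rw [L2.inner_def, L2.inner_def]
  refine integral_congr_ae ?_
  filter_upwards [EP_coe S hS f, EP_coe S hS g] with x h1 h2
  rw [h1, h2]
  by_cases h : x ∈ S
  · rw [Set.indicator_of_mem h, Set.indicator_of_mem h]
  · rw [Set.indicator_of_notMem h, Set.indicator_of_notMem h, inner_zero_left, inner_zero_right]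

lemma EP_compl (S : Set X) (hS : MeasurableSet S) :
    (1 - EP S hS : Lp ℂ 2 μ →L[ℂ] Lp ℂ 2 μ) = EP Sᶜ hS.compl := by
  ext1 f
  change f - EP S hS f = EP Sᶜ hS.compl f
  refine Lp.ext ?_
  filter_upwards [EP_coe S hS f, EP_coe Sᶜ hS.compl f, Lp.coeFn_sub f (EP S hS f)] with x h1 h2 h3
  rw [h3, h2, Pi.sub_apply, h1]
  by_cases h : x ∈ S
  · rw [Set.indicator_of_mem h, Set.indicator_of_notMem (by simpa using h), sub_self]
  · rw [Set.indicator_of_notMem h, Set.indicator_of_mem h, sub_zero]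

lemma EP_ind (S : Set X) (hS : MeasurableSet S) (A : Set X) (hA : MeasurableSet A)
    (hAf : μ A ≠ ∞) (hf : μ (A ∩ S) ≠ ∞) :
    EP S hS (indicatorConstLp 2 hA hAf (1 : ℂ)) =
      indicatorConstLp 2 (hA.inter hS) hf (1 : ℂ) := by
  refine Lp.ext ?_
  filter_upwards [EP_coe S hS (indicatorConstLp 2 hA hAf (1 : ℂ)),
    indicatorConstLp_coeFn (p := 2) (hs := hA) (hμs := hAf) (c := (1 : ℂ)),
    indicatorConstLp_coeFn (p := 2) (hs := hA.inter hS) (hμs := hf) (c := (1 : ℂ))] with x h1 h2 h3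
  rw [h1, h3]
  by_cases h : x ∈ S
  · rw [Set.indicator_of_mem h, h2]
    by_cases h' : x ∈ A <;> simp [h, h']
  · rw [Set.indicator_of_notMem h]
    simp [h]

/-- the closed subspace generated by a family; a property of indicators extends -/
lemma Lp_ind (L : Submodule ℂ (Lp ℂ 2 μ)) (hL : IsClosed (L : Set (Lp ℂ 2 μ)))
    (h : ∀ (A : Set X) (hA : MeasurableSet A) (hAf : μ A ≠ ∞),
      indicatorConstLp 2 hA hAf (1 : ℂ) ∈ L) (f : Lp ℂ 2 μ) : f ∈ L := by
  refine Lp.induction (p := 2) (by norm_num) (motive := fun f => f ∈ L) ?_ ?_ ?_ f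
  · intro c s hs hμs
    rw [Lp.simpleFunc.coe_indicatorConst, ind_smul hs hμs.ne c]
    exact L.smul_mem _ (h s hs hμs.ne)
  · intro f g hf hg _ hf' hg'
    exact L.add_mem hf' hg'
  · exact hL

variable (μ) in
/-- the set of atoms -/
def At : Set X := {y | 0 < μ {y}}

lemma At_countable [MeasurableSingletonClass X] [SigmaFinite μ] : (At μ).Countable := by
  refine Measure.countable_meas_pos_of_disjoint_iUnion (μ := μ) (As := fun y : X => {y})
    (fun y => measurableSet_singleton y) ?_
  intro a b hab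
  exact Set.disjoint_singleton.2 hab

lemma At_meas [MeasurableSingletonClass X] [SigmaFinite μ] : MeasurableSet (At μ) :=
  At_countable.measurableSet

lemma fin_single [SigmaFinite μ] [MeasurableSingletonClass X] (x : X) : μ {x} ≠ ∞ :=
  (measure_singleton_lt_top).ne

/-- vectors vanishing on the atomic part are mapped to such vectors -/
lemma vanish1 [StandardBorelSpace X] [SigmaFinite μ] {a : Lp ℂ 2 μ →L[ℂ] Lp ℂ 2 μ} (ha : Bs a)
    (f : Lp ℂ 2 μ) : EP (At μ) At_meas (a (EP (At μ)ᶜ At_meas.compl f)) = 0 := by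
  have h1 : ∀ x ∈ At μ, inner ℂ (indicatorConstLp 2 (measurableSet_singleton x) (fin_single x)
      (1 : ℂ)) (a (EP (At μ)ᶜ At_meas.compl f)) = 0 := by
    intro x hx
    let L : Submodule ℂ (Lp ℂ 2 μ) :=
      { carrier := {f | inner ℂ (indicatorConstLp 2 (measurableSet_singleton x) (fin_single x)
          (1 : ℂ)) (a (EP (At μ)ᶜ At_meas.compl f)) = 0}
        add_mem' := fun {b c} hb hc => by
          have hb' : inner ℂ (indicatorConstLp 2 (measurableSet_singleton x) (fin_single x)
            (1 : ℂ)) (a (EP (At μ)ᶜ At_meas.compl b)) = 0 := hb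
          have hc' : inner ℂ (indicatorConstLp 2 (measurableSet_singleton x) (fin_single x)
            (1 : ℂ)) (a (EP (At μ)ᶜ At_meas.compl c)) = 0 := hc
          change inner ℂ (indicatorConstLp 2 (measurableSet_singleton x) (fin_single x)
            (1 : ℂ)) (a (EP (At μ)ᶜ At_meas.compl (b + c))) = 0
          rw [map_add, map_add, inner_add_right, hb', hc', add_zero]
        zero_mem' := by
          change inner ℂ (indicatorConstLp 2 (measurableSet_singleton x) (fin_single x)
            (1 : ℂ)) (a (EP (At μ)ᶜ At_meas.compl 0)) = 0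
          rw [map_zero, map_zero, inner_zero_right]
        smul_mem' := fun c b hb => by
          have hb' : inner ℂ (indicatorConstLp 2 (measurableSet_singleton x) (fin_single x)
            (1 : ℂ)) (a (EP (At μ)ᶜ At_meas.compl b)) = 0 := hb
          change inner ℂ (indicatorConstLp 2 (measurableSet_singleton x) (fin_single x)
            (1 : ℂ)) (a (EP (At μ)ᶜ At_meas.compl (c • b))) = 0
          rw [map_smul, map_smul, inner_smul_right, hb', mul_zero] }
    refine Lp_ind L ?_ ?_ f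
    · refine isClosed_eq ?_ continuous_const
      fun_prop
    · intro A hA hAf
      change inner ℂ (indicatorConstLp 2 (measurableSet_singleton x) (fin_single x)
            (1 : ℂ)) (a (EP (At μ)ᶜ At_meas.compl (indicatorConstLp 2 hA hAf (1 : ℂ)))) = 0
      have hf : μ (A ∩ (At μ)ᶜ) ≠ ∞ :=
        ((measure_mono Set.inter_subset_left).trans_lt hAf.lt_top).ne
      rw [EP_ind _ _ A hA hAf hf]
      refine diffuse_vanish ha x (fin_single x) (ne_of_gt hx) _ _ hf ?_
      intro z hz
      exact nonpos_iff_eq_zero.1 (not_lt.1 hz.2)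
  refine Lp.ext ?_
  refine Filter.EventuallyEq.trans ?_ (Lp.coeFn_zero _ _ _).symm
  filter_upwards [EP_coe (At μ) At_meas (a (EP (At μ)ᶜ At_meas.compl f))] with x hx
  rw [hx]
  by_cases h : x ∈ At μ
  · rw [Set.indicator_of_mem h]
    have h2 := h1 x h
    rw [L2.inner_indicatorConstLp_one, integral_singleton] at h2
    rcases smul_eq_zero.1 h2 with h' | h'
    · exfalso
      rw [Measure.real, ENNReal.toReal_eq_zero_iff] at h'
      rcases h' with h' | h'
      · exact (ne_of_gt h) h'
      · exact fin_single x h'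
    · exact h'
  · rw [Set.indicator_of_notMem h]; rfl

lemma EP_add (S : Set X) (hS : MeasurableSet S) (f : Lp ℂ 2 μ) :
    EP S hS f + EP Sᶜ hS.compl f = f := by
  rw [← EP_compl]
  change EP S hS f + (f - EP S hS f) = f
  abel

lemma EP_mul_zero (S : Set X) (hS : MeasurableSet S) (f : Lp ℂ 2 μ) :
    EP S hS (EP Sᶜ hS.compl f) = 0 := by
  rw [← EP_compl]
  change EP S hS (f - EP S hS f) = 0
  rw [map_sub, EP_idem, sub_self]

lemma commBs [StandardBorelSpace X] [SigmaFinite μ] {a : Lp ℂ 2 μ →L[ℂ] Lp ℂ 2 μ} (ha : Bs a)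
    (f : Lp ℂ 2 μ) : a (EP (At μ) At_meas f) = EP (At μ) At_meas (a f) := by
  have h1 : EP (At μ) At_meas (a f) = EP (At μ) At_meas (a (EP (At μ) At_meas f)) := by
    conv_lhs => rw [← EP_add (At μ) At_meas f, map_add, map_add, vanish1 ha, add_zero]
  have h2 : EP (At μ)ᶜ At_meas.compl (a (EP (At μ) At_meas f)) = 0 := by
    rw [← inner_self_eq_zero (𝕜 := ℂ)]
    set g := EP (At μ)ᶜ At_meas.compl (a (EP (At μ) At_meas f)) with hg
    have h3 : inner ℂ g g = (inner ℂ f (EP (At μ) At_meas (adjoint a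
        (EP (At μ)ᶜ At_meas.compl g))) : ℂ) := by
      conv_lhs => rw [hg, EP_inner]
      rw [← adjoint_inner_right, EP_inner]
    rw [h3, vanish1 ha.adj, inner_zero_right]
  rw [h1]
  conv_lhs => rw [← EP_add (At μ) At_meas (a (EP (At μ) At_meas f)), h2, add_zero]

lemma commCuS [StandardBorelSpace X] [SigmaFinite μ] (a : Lp ℂ 2 μ →L[ℂ] Lp ℂ 2 μ)
    (ha : a ∈ CuS μ) (f : Lp ℂ 2 μ) : a (EP (At μ) At_meas f) = EP (At μ) At_meas (a f) := by
  have hT' : a ∈ closure {a : Lp ℂ 2 μ →L[ℂ] Lp ℂ 2 μ | Bs a} := by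
    rw [← coe_CuS]; exact ha
  have hcl : IsClosed {a : Lp ℂ 2 μ →L[ℂ] Lp ℂ 2 μ |
      a (EP (At μ) At_meas f) = EP (At μ) At_meas (a f)} := by
    refine isClosed_eq ?_ ?_ <;> fun_prop
  exact closure_minimal (fun a ha => commBs ha f) hcl hT'

/-- pieces exist in the atomless part -/
lemma exists_piece' [StandardBorelSpace X] (C : Set X)
    (hC : MeasurableSet C) (h0 : μ C ≠ 0) (hf : μ C ≠ ∞) (hCn : ∀ z ∈ C, μ {z} = 0) :
    Nonempty (Piece μ C) := by
  set m : ℝ≥0 := (μ C).toNNReal with hm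
  have hmC : (m : ℝ≥0∞) = μ C := ENNReal.coe_toNNReal hf
  have hm0 : m ≠ 0 := by
    intro h
    apply h0
    rw [← hmC, h]; rfl
  set P : Measure X := ((m⁻¹ : ℝ≥0) : ℝ≥0∞) • μ.restrict C with hP
  have hPp : IsProbabilityMeasure P := by
    refine ⟨?_⟩
    rw [hP, Measure.smul_apply, Measure.restrict_apply_univ, ← hmC, smul_eq_mul,
      ← ENNReal.coe_mul, inv_mul_cancel₀ hm0]
    rfl
  have hPa : NullSingletonClass P := by
    refine ⟨fun z => ?_⟩
    rw [hP, Measure.smul_apply, Measure.restrict_apply (measurableSet_singleton z)]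
    have : μ ({z} ∩ C) = 0 := by
      by_cases hz : z ∈ C
      · exact measure_mono_null Set.inter_subset_left (hCn z hz)
      · rw [Set.singleton_inter_eq_empty.2 hz, measure_empty]
    rw [this, smul_zero]
  obtain ⟨p, r, hp, hr, hrp⟩ := iso_two P (volume : Measure TT)
  have hPμ : (m : ℝ≥0∞) • P = μ.restrict C := by
    rw [hP, smul_smul, ← ENNReal.coe_mul, mul_inv_cancel₀ hm0]
    simp
  refine ⟨⟨m, hm0, p, r, hC, ⟨hp.measurable, ?_⟩, ⟨hr.measurable, ?_⟩, ?_⟩⟩
  · rw [← hPμ, Measure.map_smul, hp.map_eq]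
  · rw [← hPμ, Measure.map_smul, hr.map_eq]
  · rw [← hPμ]
    exact (Measure.smul_absolutelyContinuous : (m : ℝ≥0∞) • P ≪ P).ae_le hrp

lemma rank_diffuse [StandardBorelSpace X] [SigmaFinite μ] (x y : Lp ℂ 2 μ) :
    rankOne ℂ (EP (At μ)ᶜ At_meas.compl x) (EP (At μ)ᶜ At_meas.compl y) ∈ CuS μ := by
  set E : Set (Lp ℂ 2 μ) := {f | ∃ (A : Set X) (hA : MeasurableSet A) (hAf : μ A ≠ ∞),
    A ⊆ (At μ)ᶜ ∧ f = indicatorConstLp 2 hA hAf (1 : ℂ)} with hE
  have hin : ∀ x : Lp ℂ 2 μ,
      EP (At μ)ᶜ At_meas.compl x ∈ (Submodule.span ℂ E).topologicalClosure := by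
    intro x
    have := Lp_ind (((Submodule.span ℂ E).topologicalClosure).comap
      ((EP (At μ)ᶜ At_meas.compl : Lp ℂ 2 μ →L[ℂ] Lp ℂ 2 μ) : Lp ℂ 2 μ →ₗ[ℂ] Lp ℂ 2 μ)) ?_ ?_ x
    · exact this
    · exact (Submodule.isClosed_topologicalClosure _).preimage
        (EP (At μ)ᶜ At_meas.compl).continuous
    · intro A hA hAf
      change EP (At μ)ᶜ At_meas.compl (indicatorConstLp 2 hA hAf (1 : ℂ)) ∈
        (Submodule.span ℂ E).topologicalClosure
      have hf : μ (A ∩ (At μ)ᶜ) ≠ ∞ :=
        ((measure_mono Set.inter_subset_left).trans_lt hAf.lt_top).ne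
      rw [EP_ind _ _ A hA hAf hf]
      exact Submodule.le_topologicalClosure _ (Submodule.subset_span
        ⟨_, _, hf, Set.inter_subset_right, rfl⟩)
  refine rankOne_mem_of_closure _ (CuS_closed μ) E ?_ _ _ (hin x) (hin y)
  rintro e ⟨A, hA, hAf, hAS, rfl⟩ e' ⟨B, hB, hBf, hBS, rfl⟩
  by_cases h0 : μ (A ∪ B) = 0
  · have hA0 : μ A = 0 := measure_mono_null Set.subset_union_left h0
    have : indicatorConstLp 2 hA hAf (1 : ℂ) = 0 := by
      refine Lp.ext ?_
      refine indicatorConstLp_coeFn.trans ?_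
      refine Filter.EventuallyEq.trans ?_ (Lp.coeFn_zero _ _ _).symm
      exact indicator_meas_zero hA0
    rw [this, map_zero]
    exact (CuS μ).zero_mem
  · have hfin : μ (A ∪ B) ≠ ∞ := ((measure_union_le _ _).trans_lt
      (ENNReal.add_lt_top.2 ⟨hAf.lt_top, hBf.lt_top⟩)).ne
    obtain ⟨D⟩ := exists_piece' (μ := μ) (A ∪ B) (hA.union hB) h0 hfin (by
      intro z hz
      have : z ∈ (At μ)ᶜ := (Set.union_subset hAS hBS) hz
      exact nonpos_iff_eq_zero.1 (not_lt.1 this))
    exact piece_rankOne D A B hA hB Set.subset_union_left Set.subset_union_right hAf hBf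

lemma rank_atomic [MeasurableSingletonClass X] [SigmaFinite μ] (x y : Lp ℂ 2 μ) :
    rankOne ℂ (EP (At μ) At_meas x) (EP (At μ) At_meas y) ∈ CuS μ := by
  set E : Set (Lp ℂ 2 μ) := {f | ∃ x : X, μ {x} ≠ 0 ∧
    f = indicatorConstLp 2 (measurableSet_singleton x) (fin_single x) (1 : ℂ)} with hE
  have hin : ∀ x : Lp ℂ 2 μ,
      EP (At μ) At_meas x ∈ (Submodule.span ℂ E).topologicalClosure := by
    intro x
    rw [← Submodule.orthogonal_orthogonal_eq_closure, Submodule.mem_orthogonal]
    intro g hg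
    rw [Submodule.mem_orthogonal] at hg
    rw [← EP_inner]
    have : EP (At μ) At_meas g = 0 := by
      refine Lp.ext ?_
      refine Filter.EventuallyEq.trans ?_ (Lp.coeFn_zero _ _ _).symm
      filter_upwards [EP_coe (At μ) At_meas g] with x hx
      rw [hx]
      by_cases h : x ∈ At μ
      · rw [Set.indicator_of_mem h]
        have h2 := hg _ (Submodule.subset_span ⟨x, ne_of_gt h, rfl⟩)
        rw [L2.inner_indicatorConstLp_one, integral_singleton] at h2
        rcases smul_eq_zero.1 h2 with h' | h'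
        · exfalso
          rw [Measure.real, ENNReal.toReal_eq_zero_iff] at h'
          rcases h' with h' | h'
          · exact (ne_of_gt h) h'
          · exact fin_single x h'
        · exact h'
      · rw [Set.indicator_of_notMem h]; rfl
    rw [this, inner_zero_left]
  refine rankOne_mem_of_closure _ (CuS_closed μ) E ?_ _ _ (hin x) (hin y)
  rintro e ⟨x, hx, rfl⟩ e' ⟨y, hy, rfl⟩
  exact CuS_of_Bs (rankOne_atoms_Bs x y (fin_single x) (fin_single y) hx hy)

end Pool.Agent.V1175.SE
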