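import Pool.Agent.V1175.SE.Statement2
import Pool.Agent.V1175.SE.Blocks

set_option autoImplicit false

open scoped ENNReal NNReal
open MeasureTheory InnerProductSpace Filter Topology ContinuousLinearMap

namespace Pool.Agent.V1175.SE

variable {X : Type*} [MeasurableSpace X] {μ : Measure X}

lemma mem_CuAlg (a : Op μ) :
    a ∈ CuAlg μ ↔ (show Lp ℂ 2 μ →L[ℂ] Lp ℂ 2 μ from a) ∈ CuS μ := by
  have h1 : a ∈ CuAlg μ ↔ a ∈ CstarU μ := Iff.rfl
  rw [h1, CstarU_eq]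
  exact Iff.rfl

lemma blk_at [StandardBorelSpace X] [SigmaFinite μ] :
    Blk (CuAlg μ) (show Op μ from (EP (At μ) At_meas : Lp ℂ 2 μ →L[ℂ] Lp ℂ 2 μ)) where
  sa := fun x y => EP_inner (At μ) At_meas x y
  idem := fun x => EP_idem (At μ) At_meas x
  comm := fun a ha x => commCuS a ((mem_CuAlg a).1 ha) x
  r1 := fun x y => (mem_CuAlg _).2 (rank_atomic x y)

lemma blk_at' [StandardBorelSpace X] [SigmaFinite μ] :
    Blk (CuAlg μ) (1 - (show Op μ from (EP (At μ) At_meas : Lp ℂ 2 μ →L[ℂ] Lp ℂ 2 μ))) := by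
  have h : (1 - (show Op μ from (EP (At μ) At_meas : Lp ℂ 2 μ →L[ℂ] Lp ℂ 2 μ)) : Op μ) =
      (show Op μ from (EP (At μ)ᶜ At_meas.compl : Lp ℂ 2 μ →L[ℂ] Lp ℂ 2 μ)) :=
    EP_compl (At μ) At_meas
  rw [h]
  refine ⟨fun x y => EP_inner _ _ x y, fun x => EP_idem _ _ x, fun a ha x => ?_,
    fun x y => (mem_CuAlg _).2 (rank_diffuse x y)⟩
  have h2 : ∀ y : HSp μ, (show Op μ from (EP (At μ)ᶜ At_meas.compl :
      Lp ℂ 2 μ →L[ℂ] Lp ℂ 2 μ)) y = y - (show Op μ from (EP (At μ) At_meas :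
      Lp ℂ 2 μ →L[ℂ] Lp ℂ 2 μ)) y := by
    intro y
    rw [← h]; rfl
  rw [h2, h2, map_sub]
  congr 1
  exact commCuS a ((mem_CuAlg a).1 ha) x

lemma mem_CuAlg' (a : Op μ) : a ∈ CuAlg μ ↔ a ∈ CstarU μ := Iff.rfl

/-- the isomorphism as a bundled map -/
noncomputable def mkIso {Y : Type*} [MeasurableSpace Y] {ν : Measure Y} (Φ : Op μ → Op ν)
    (h : IsStarIso Φ) : CuAlg μ ≃⋆ₐ[ℂ] CuAlg ν :=
  let e : CuAlg μ ≃ CuAlg ν := Equiv.ofBijective
    (fun a => (⟨Φ a, h.1.mapsTo a.2⟩ : CuAlg ν))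
    ⟨fun a b hab => Subtype.ext (h.1.injOn a.2 b.2 (congrArg Subtype.val hab)),
      fun b => by
        obtain ⟨a, ha, hab⟩ := h.1.surjOn b.2
        exact ⟨⟨a, ha⟩, Subtype.ext hab⟩⟩
  { e with
    map_mul' := fun a b => Subtype.ext (h.2.2.1 a a.2 b b.2)
    map_add' := fun a b => Subtype.ext (h.2.1.1 a a.2 b b.2)
    map_star' := fun a => Subtype.ext (h.2.2.2 a a.2)
    map_smul' := fun c a => Subtype.ext (h.2.1.2 c a a.2) }

theorem spatial_main {Y : Type*} [MeasurableSpace Y] {ν : Measure Y}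
    [StandardBorelSpace X] [SigmaFinite μ] [StandardBorelSpace Y] [SigmaFinite ν]
    (Φ : Op μ → Op ν) (h : IsStarIso Φ) : Spatial Φ := by
  obtain ⟨U, hU⟩ := spatial (mkIso Φ h) blk_at blk_at' blk_at blk_at'
  exact ⟨U, fun a ha x => hU ⟨a, ha⟩ x⟩

end Pool.Agent.V1175.SE
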