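import Pool.Agent.V1175.SE.Atoms

set_option autoImplicit false

open scoped ENNReal NNReal
open MeasureTheory InnerProductSpace Filter Topology ContinuousLinearMap

namespace Pool.Agent.V1175.SE

section gen

variable {H : Type*} [NormedAddCommGroup H] [InnerProductSpace ℂ H] [CompleteSpace H]

lemma rankOne_mem_of_span (S : Submodule ℂ (H →L[ℂ] H)) (hcl : IsClosed (S : Set (H →L[ℂ] H)))
    (E : Set H) (hE : (Submodule.span ℂ E).topologicalClosure = ⊤)
    (hS : ∀ e ∈ E, ∀ e' ∈ E, rankOne ℂ e e' ∈ S) (x y : H) : rankOne ℂ x y ∈ S := by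
  have h1 : ∀ e' ∈ E, ∀ x : H, rankOne ℂ x e' ∈ S := by
    intro e' he' x
    let L : Submodule ℂ H :=
      { carrier := {x | rankOne ℂ x e' ∈ S}
        add_mem' := fun {a b} ha hb => by
          change rankOne ℂ (a + b) e' ∈ S
          rw [map_add]; exact S.add_mem ha hb
        zero_mem' := by
          change rankOne ℂ (0 : H) e' ∈ S
          rw [map_zero]; exact S.zero_mem
        smul_mem' := fun c a ha => by
          change rankOne ℂ (c • a) e' ∈ S
          rw [map_smul]; exact S.smul_mem _ ha }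
    have hL : IsClosed (L : Set H) := by
      have : (L : Set H) = (fun f : H => rankOne ℂ f e') ⁻¹' S := rfl
      rw [this]
      exact hcl.preimage (ContinuousLinearMap.smulRightL ℂ H H (innerSL ℂ e')).continuous
    have h2 : (Submodule.span ℂ E).topologicalClosure ≤ L :=
      Submodule.topologicalClosure_minimal _ (Submodule.span_le.2 fun e he => hS e he e' he') hL
    rw [hE] at h2
    exact h2 (Submodule.mem_top)
  let L : Submodule ℂ H :=
    { carrier := {y | rankOne ℂ x y ∈ S}
      add_mem' := fun {a b} ha hb => by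
        change rankOne ℂ x (a + b) ∈ S
        rw [map_add]; exact S.add_mem ha hb
      zero_mem' := by
        change rankOne ℂ x (0 : H) ∈ S
        rw [map_zero]; exact S.zero_mem
      smul_mem' := fun c a ha => by
        change rankOne ℂ x (c • a) ∈ S
        rw [map_smulₛₗ]; exact S.smul_mem _ ha }
  have hL : IsClosed (L : Set H) := by
    have : (L : Set H) = (fun f : H => rankOne ℂ x f) ⁻¹' S := rfl
    rw [this]
    exact hcl.preimage (rankOne ℂ x).continuous
  have h2 : (Submodule.span ℂ E).topologicalClosure ≤ L :=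
    Submodule.topologicalClosure_minimal _ (Submodule.span_le.2 fun e he => h1 e he x) hL
  rw [hE] at h2
  exact h2 (Submodule.mem_top)

end gen

variable {X : Type*} [MeasurableSpace X] {μ : Measure X}

/-- the purely atomic case -/
lemma atomic_all [MeasurableSingletonClass X] [SigmaFinite μ] (S : Set X) (hS : S.Countable)
    (hS0 : μ Sᶜ = 0) (T : Lp ℂ 2 μ →L[ℂ] Lp ℂ 2 μ) (hT : IsCompactOperator T) : T ∈ CuS μ := by
  have hfin : ∀ x : X, μ {x} ≠ ∞ := fun x => (measure_singleton_lt_top).ne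
  set E : Set (Lp ℂ 2 μ) := {f | ∃ x : X, μ {x} ≠ 0 ∧
    f = indicatorConstLp 2 (measurableSet_singleton x) (hfin x) (1 : ℂ)} with hE
  refine compact_mem _ (CuS_closed μ) (fun x y => ?_) T hT
  refine rankOne_mem_of_span _ (CuS_closed μ) E ?_ ?_ x y
  · rw [Submodule.topologicalClosure_eq_top_iff, Submodule.eq_bot_iff]
    intro g hg
    rw [Submodule.mem_orthogonal] at hg
    have h1 : ∀ x : X, μ {x} ≠ 0 → g x = 0 := by
      intro x hx
      have h2 := hg _ (Submodule.subset_span ⟨x, hx, rfl⟩)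
      rw [L2.inner_indicatorConstLp_one, integral_singleton] at h2
      rcases smul_eq_zero.1 h2 with h | h
      · exfalso
        rw [Measure.real, ENNReal.toReal_eq_zero_iff] at h
        rcases h with h | h
        · exact hx h
        · exact hfin x h
      · exact h
    refine Lp.ext ?_
    refine Filter.EventuallyEq.trans ?_ (Lp.coeFn_zero _ _ _).symm
    have h3 : ∀ᵐ x ∂μ, x ∈ S := by rw [ae_iff]; exact hS0
    have h4 : ∀ᵐ x ∂μ, x ∈ S → μ {x} ≠ 0 := by
      rw [ae_iff]
      have : {a | ¬ (a ∈ S → μ {a} ≠ 0)} ⊆ ⋃ x ∈ {x ∈ S | μ {x} = 0}, {x} := by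
        intro a ha
        simp only [Set.mem_ofPred_eq, Classical.not_imp, not_not] at ha
        simp only [Set.mem_iUnion]
        exact ⟨a, ha, rfl⟩
      refine measure_mono_null this ?_
      rw [measure_biUnion_null_iff (hS.mono (Set.sep_subset _ _))]
      exact fun x hx => hx.2
    filter_upwards [h3, h4] with x hx hx'
    exact h1 x (hx' hx)
  · rintro e ⟨x, hx, rfl⟩ e' ⟨y, hy, rfl⟩
    exact CuS_of_Bs (rankOne_atoms_Bs x y (hfin x) (hfin y) hx hy)

lemma compact_rankOne {H : Type*} [NormedAddCommGroup H] [InnerProductSpace ℂ H]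
    (x y : H) : IsCompactOperator (rankOne ℂ x y : H →L[ℂ] H) := by
  have h1 : rankOne ℂ x y = (ContinuousLinearMap.toSpanSingleton ℂ x) ∘L innerSL ℂ y := rfl
  rw [h1]
  have h2 : IsCompactOperator (ContinuousLinearMap.toSpanSingleton ℂ x : ℂ →L[ℂ] H) := by
    refine isCompactOperator_of_locallyCompactSpace_rng _
  exact h2.comp_clm (innerSL ℂ y)

lemma ind_ne_zero {A : Set X} (hA : MeasurableSet A) (hAf : μ A ≠ ∞) (h0 : μ A ≠ 0) :
    indicatorConstLp 2 hA hAf (1 : ℂ) ≠ 0 := by
  intro h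
  have h1 := supp_ind hA hAf
  rw [h] at h1
  apply h0
  rw [← h1, ← le_zero_iff, ← measure_empty (μ := μ)]
  refine measure_mono_ae ?_
  filter_upwards [Lp.coeFn_zero ℂ 2 μ] with x hx hs
  exact hs hx

lemma rankOne_ne_zero {H : Type*} [NormedAddCommGroup H] [InnerProductSpace ℂ H]
    {x y : H} (hx : x ≠ 0) (hy : y ≠ 0) : (rankOne ℂ x y : H →L[ℂ] H) ≠ 0 := by
  intro h
  have := norm_rankOne (𝕜 := ℂ) x y
  rw [h, norm_zero] at this
  rcases mul_eq_zero.1 this.symm with h | h
  · exact hx (norm_eq_zero.1 h)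
  · exact hy (norm_eq_zero.1 h)

/-- existence of a non-zero compact operator -/
lemma exists_compact [StandardBorelSpace X] [SigmaFinite μ] (hμ : μ ≠ 0) :
    ∃ T : Lp ℂ 2 μ →L[ℂ] Lp ℂ 2 μ, T ≠ 0 ∧ IsCompactOperator T ∧ T ∈ CuS μ := by
  by_cases hat : ∃ x, μ {x} ≠ 0
  · obtain ⟨x, hx⟩ := hat
    have hfin : μ {x} ≠ ∞ := (measure_singleton_lt_top).ne
    refine ⟨rankOne ℂ (indicatorConstLp 2 (measurableSet_singleton x) hfin (1 : ℂ))
      (indicatorConstLp 2 (measurableSet_singleton x) hfin (1 : ℂ)), ?_, compact_rankOne _ _, ?_⟩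
    · exact rankOne_ne_zero (ind_ne_zero _ _ hx) (ind_ne_zero _ _ hx)
    · exact CuS_of_Bs (rankOne_atoms_Bs x x hfin hfin hx hx)
  · push Not at hat
    have : NullSingletonClass μ := ⟨hat⟩
    have h1 : (0 : ℝ≥0∞) < μ Set.univ := by
      rw [pos_iff_ne_zero]
      intro h
      exact hμ (Measure.measure_univ_eq_zero.1 h)
    obtain ⟨D, hD, -, hD0, hDf⟩ := Measure.exists_subset_measure_lt_top MeasurableSet.univ h1
    refine ⟨rankOne ℂ (indicatorConstLp 2 hD hDf.ne (1 : ℂ))
      (indicatorConstLp 2 hD hDf.ne (1 : ℂ)), ?_, compact_rankOne _ _, ?_⟩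
    · exact rankOne_ne_zero (ind_ne_zero _ _ hD0.ne') (ind_ne_zero _ _ hD0.ne')
    · exact compact_mem_CuS _ (compact_rankOne _ _)

/-- which measures have all compact operators -/
lemma all_compact_iff [StandardBorelSpace X] [SigmaFinite μ] :
    (∀ T : Lp ℂ 2 μ →L[ℂ] Lp ℂ 2 μ, IsCompactOperator T → T ∈ CuS μ) ↔
      ((∀ x, μ {x} = 0) ∨ ∃ S : Set X, S.Countable ∧ μ Sᶜ = 0) := by
  constructor
  · intro hall
    by_contra hcon
    push Not at hcon
    obtain ⟨⟨x, hx⟩, hS⟩ := hcon
    have hfin : μ {x} ≠ ∞ := (measure_singleton_lt_top).ne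
    set S : Set X := {y | 0 < μ {y}} with hSdef
    have hSc : S.Countable := by
      refine Measure.countable_meas_pos_of_disjoint_iUnion (μ := μ) (As := fun y : X => {y})
        (fun y => measurableSet_singleton y) ?_
      intro a b hab
      exact Set.disjoint_singleton.2 hab
    have h1 : (0 : ℝ≥0∞) < μ Sᶜ := pos_iff_ne_zero.2 (hS S hSc)
    obtain ⟨D, hD, hDS, hD0, hDf⟩ :=
      Measure.exists_subset_measure_lt_top hSc.measurableSet.compl h1
    have hDn : ∀ z ∈ D, μ {z} = 0 := by
      intro z hz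
      have : ¬ (0 < μ {z}) := hDS hz
      exact nonpos_iff_eq_zero.1 (not_lt.1 this)
    have hT := hall _ (compact_rankOne
      (indicatorConstLp 2 (measurableSet_singleton x) hfin (1 : ℂ))
      (indicatorConstLp 2 hD hDf.ne (1 : ℂ)))
    have hclosed : ∀ T ∈ CuS μ,
        inner ℂ (indicatorConstLp 2 (measurableSet_singleton x) hfin (1 : ℂ))
          (T (indicatorConstLp 2 hD hDf.ne (1 : ℂ))) = 0 := by
      intro T hT
      have hT' : T ∈ closure {a : Lp ℂ 2 μ →L[ℂ] Lp ℂ 2 μ | Bs a} := by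
        rw [← coe_CuS]; exact hT
      have hcl : IsClosed {T : Lp ℂ 2 μ →L[ℂ] Lp ℂ 2 μ |
          inner ℂ (indicatorConstLp 2 (measurableSet_singleton x) hfin (1 : ℂ))
          (T (indicatorConstLp 2 hD hDf.ne (1 : ℂ))) = 0} := by
        refine isClosed_eq ?_ continuous_const
        fun_prop
      exact closure_minimal (fun a ha => diffuse_vanish ha x hfin hx D hD hDf.ne hDn) hcl hT'
    have h2 := hclosed _ hT
    rw [rankOne_apply, inner_smul_right] at h2
    rcases mul_eq_zero.1 h2 with h | h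
    · exact ind_ne_zero hD hDf.ne hD0.ne' (inner_self_eq_zero.1 h)
    · exact ind_ne_zero (measurableSet_singleton x) hfin hx (inner_self_eq_zero.1 h)
  · rintro (h | ⟨S, hSc, hS0⟩) T hT
    · have : NullSingletonClass μ := ⟨h⟩
      exact compact_mem_CuS T hT
    · exact atomic_all S hSc hS0 T hT

end Pool.Agent.V1175.SE
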