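import Mathlib

set_option autoImplicit false

open scoped ENNReal NNReal
open MeasureTheory InnerProductSpace Filter Topology ContinuousLinearMap

namespace Pool.Agent.V1175.SE

variable {X Y Z : Type*} [MeasurableSpace X] [MeasurableSpace Y] [MeasurableSpace Z]
  {μ : Measure X} {ν : Measure Y} {ρ : Measure Z}

/-- one-sided bound on the expansion of supports -/
def SEx (c : ℝ≥0) (a : Lp ℂ 2 μ →L[ℂ] Lp ℂ 2 ν) : Prop :=
  ∀ ξ : Lp ℂ 2 μ, ν (Function.support (a ξ)) ≤ c * μ (Function.support ξ)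

/-- two-sided bounded support expansion -/
def Bs (a : Lp ℂ 2 μ →L[ℂ] Lp ℂ 2 ν) : Prop :=
  ∃ c : ℝ≥0, SEx c a ∧ SEx c (adjoint a)

lemma SEx.mono {c d : ℝ≥0} {a : Lp ℂ 2 μ →L[ℂ] Lp ℂ 2 ν} (h : SEx c a) (hcd : c ≤ d) :
    SEx d a := fun ξ => (h ξ).trans (by gcongr)

lemma Bs_of {c d : ℝ≥0} {a : Lp ℂ 2 μ →L[ℂ] Lp ℂ 2 ν} (h : SEx c a) (h' : SEx d (adjoint a)) :
    Bs a := ⟨max c d, h.mono (le_max_left _ _), h'.mono (le_max_right _ _)⟩

lemma SEx.comp {c d : ℝ≥0} {a : Lp ℂ 2 μ →L[ℂ] Lp ℂ 2 ν} {b : Lp ℂ 2 ν →L[ℂ] Lp ℂ 2 ρ}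
    (hb : SEx d b) (ha : SEx c a) : SEx (d * c) (b ∘L a) := by
  intro ξ
  refine (hb (a ξ)).trans ?_
  rw [ENNReal.coe_mul, mul_assoc]
  exact mul_le_mul_right (ha ξ) _

lemma SEx.add {c d : ℝ≥0} {a b : Lp ℂ 2 μ →L[ℂ] Lp ℂ 2 ν}
    (ha : SEx c a) (hb : SEx d b) : SEx (c + d) (a + b) := by
  intro ξ
  have h1 : ν (Function.support ((a + b) ξ : Lp ℂ 2 ν)) ≤
      ν (Function.support (a ξ) ∪ Function.support (b ξ)) := by
    refine measure_mono_ae ?_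
    have h2 : ((a + b) ξ : Lp ℂ 2 ν) =ᵐ[ν] a ξ + b ξ := Lp.coeFn_add _ _
    filter_upwards [h2] with x hx hs
    by_contra hc
    have hc' : x ∉ Function.support (a ξ) ∪ Function.support (b ξ) := hc
    rw [Set.mem_union, not_or, Function.notMem_support, Function.notMem_support] at hc'
    exact hs (by rw [hx, Pi.add_apply, hc'.1, hc'.2, add_zero])
  refine h1.trans ((measure_union_le _ _).trans ?_)
  rw [ENNReal.coe_add, add_mul]
  exact add_le_add (ha ξ) (hb ξ)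

lemma SEx.smul {c : ℝ≥0} {a : Lp ℂ 2 μ →L[ℂ] Lp ℂ 2 ν} (ha : SEx c a) (k : ℂ) :
    SEx c (k • a) := by
  intro ξ
  refine le_trans ?_ (ha ξ)
  refine measure_mono_ae ?_
  have h2 : ((k • a) ξ : Lp ℂ 2 ν) =ᵐ[ν] k • (a ξ : Y → ℂ) := Lp.coeFn_smul _ _
  filter_upwards [h2] with x hx hs
  by_contra hc
  have hc' : (a ξ) x = 0 := by
    by_contra h; exact hc h
  exact hs (by rw [hx, Pi.smul_apply, hc', smul_zero])

lemma SEx.one : SEx 1 (1 : Lp ℂ 2 μ →L[ℂ] Lp ℂ 2 μ) := by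
  intro ξ
  simp

lemma SEx.zero : SEx 0 (0 : Lp ℂ 2 μ →L[ℂ] Lp ℂ 2 ν) := by
  intro ξ
  have h2 : ((0 : Lp ℂ 2 μ →L[ℂ] Lp ℂ 2 ν) ξ : Lp ℂ 2 ν) =ᵐ[ν] 0 := Lp.coeFn_zero _ _ _
  have : ν (Function.support ((0 : Lp ℂ 2 μ →L[ℂ] Lp ℂ 2 ν) ξ : Lp ℂ 2 ν)) = 0 := by
    rw [← le_zero_iff, ← measure_empty (μ := ν)]
    refine measure_mono_ae ?_
    filter_upwards [h2] with x hx hs
    exact hs hx
  rw [this]
  exact zero_le

lemma Bs.comp {a : Lp ℂ 2 μ →L[ℂ] Lp ℂ 2 ν} {b : Lp ℂ 2 ν →L[ℂ] Lp ℂ 2 ρ}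
    (hb : Bs b) (ha : Bs a) : Bs (b ∘L a) := by
  obtain ⟨c, h1, h2⟩ := ha
  obtain ⟨d, h3, h4⟩ := hb
  refine Bs_of (h3.comp h1) ?_ (d := c * d)
  rw [adjoint_comp]
  exact h2.comp h4

lemma Bs.add {a b : Lp ℂ 2 μ →L[ℂ] Lp ℂ 2 ν} (ha : Bs a) (hb : Bs b) : Bs (a + b) := by
  obtain ⟨c, h1, h2⟩ := ha
  obtain ⟨d, h3, h4⟩ := hb
  refine ⟨c + d, h1.add h3, ?_⟩
  rw [map_add]
  exact h2.add h4

lemma Bs.smul {a : Lp ℂ 2 μ →L[ℂ] Lp ℂ 2 ν} (ha : Bs a) (k : ℂ) : Bs (k • a) := by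
  obtain ⟨c, h1, h2⟩ := ha
  refine ⟨c, h1.smul k, ?_⟩
  rw [map_smulₛₗ]
  exact h2.smul _

lemma Bs.zero : Bs (0 : Lp ℂ 2 μ →L[ℂ] Lp ℂ 2 ν) := by
  refine ⟨0, SEx.zero, ?_⟩
  rw [map_zero]
  exact SEx.zero

lemma Bs.adj {a : Lp ℂ 2 μ →L[ℂ] Lp ℂ 2 ν} (ha : Bs a) : Bs (adjoint a) := by
  obtain ⟨c, h1, h2⟩ := ha
  refine ⟨c, h2, ?_⟩
  rw [adjoint_adjoint]
  exact h1

lemma Bs.one : Bs (1 : Lp ℂ 2 μ →L[ℂ] Lp ℂ 2 μ) := by
  refine ⟨1, SEx.one, ?_⟩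
  have : adjoint (1 : Lp ℂ 2 μ →L[ℂ] Lp ℂ 2 μ) = 1 := by
    have := star_one (R := Lp ℂ 2 μ →L[ℂ] Lp ℂ 2 μ)
    rwa [star_eq_adjoint] at this
  rw [this]
  exact SEx.one

lemma Bs.pow {a : Lp ℂ 2 μ →L[ℂ] Lp ℂ 2 μ} (ha : Bs a) (k : ℕ) : Bs (a ^ k) := by
  induction k with
  | zero => rw [pow_zero]; exact Bs.one
  | succ k ih => rw [pow_succ]; exact ih.comp ha

lemma Bs.sum {ι : Type*} (s : Finset ι) {a : ι → (Lp ℂ 2 μ →L[ℂ] Lp ℂ 2 ν)}
    (h : ∀ i ∈ s, Bs (a i)) : Bs (∑ i ∈ s, a i) := by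
  classical
  induction s using Finset.induction_on with
  | empty => simpa using Bs.zero
  | insert i s hi ih =>
    rw [Finset.sum_insert hi]
    exact (h i (Finset.mem_insert_self _ _)).add
      (ih fun j hj => h j (Finset.mem_insert_of_mem hj))

/-! ### pull-back operators -/

section pb

variable (g : X → Y) (A : Set X) (K : ℝ≥0)

lemma pb_memLp (hg : Measurable g) (hA : MeasurableSet A)
    (hK : (μ.restrict A).map g ≤ (K : ℝ≥0∞) • ν) {f : Y → ℂ} (hf : MemLp f 2 ν) :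
    MemLp (A.indicator (f ∘ g)) 2 μ := by
  rw [memLp_indicator_iff_restrict hA]
  have h1 : MemLp f 2 ((μ.restrict A).map g) :=
    (hf.smul_measure (c := (K : ℝ≥0∞)) ENNReal.coe_ne_top).mono_measure hK
  exact (memLp_map_measure_iff h1.1 hg.aemeasurable).1 h1

lemma pb_norm (hg : Measurable g) (hA : MeasurableSet A)
    (hK : (μ.restrict A).map g ≤ (K : ℝ≥0∞) • ν) {f : Y → ℂ} (hf : MemLp f 2 ν) :
    eLpNorm (A.indicator (f ∘ g)) 2 μ ≤ (K : ℝ≥0∞) ^ (1 / 2 : ℝ) * eLpNorm f 2 ν := by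
  rw [eLpNorm_indicator_eq_eLpNorm_restrict hA]
  have h1 : MemLp f 2 ((μ.restrict A).map g) :=
    (hf.smul_measure (c := (K : ℝ≥0∞)) ENNReal.coe_ne_top).mono_measure hK
  rw [← eLpNorm_map_measure h1.1 hg.aemeasurable]
  refine (eLpNorm_mono_measure f hK).trans ?_
  rw [eLpNorm_smul_measure_of_ne_top (by norm_num)]
  simp

lemma pb_ae (hg : Measurable g) (hA : MeasurableSet A)
    (hK : (μ.restrict A).map g ≤ (K : ℝ≥0∞) • ν) {f f' : Y → ℂ} (h : f =ᵐ[ν] f') :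
    A.indicator (f ∘ g) =ᵐ[μ] A.indicator (f' ∘ g) := by
  have h1 : f =ᵐ[(μ.restrict A).map g] f' := by
    have : (μ.restrict A).map g ≪ ν :=
      (Measure.absolutelyContinuous_of_le hK).trans Measure.smul_absolutelyContinuous
    exact this.ae_eq h
  have h2 := ae_eq_comp hg.aemeasurable h1
  have h3 := (ae_restrict_iff' hA).1 h2
  filter_upwards [h3] with x hx
  by_cases hxA : x ∈ A
  · rw [Set.indicator_of_mem hxA, Set.indicator_of_mem hxA]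
    exact hx hxA
  · rw [Set.indicator_of_notMem hxA, Set.indicator_of_notMem hxA]

/-- The pull-back operator `f ↦ 1_A (f ∘ g)`. -/
noncomputable def pb (hg : Measurable g) (hA : MeasurableSet A)
    (hK : (μ.restrict A).map g ≤ (K : ℝ≥0∞) • ν) : Lp ℂ 2 ν →L[ℂ] Lp ℂ 2 μ :=
  LinearMap.mkContinuous
    { toFun := fun f => (pb_memLp g A K hg hA hK (Lp.memLp f)).toLp _
      map_add' := by
        intro f f'
        rw [← MemLp.toLp_add]
        refine MemLp.toLp_congr _ _ ?_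
        refine (pb_ae g A K hg hA hK (Lp.coeFn_add f f')).trans ?_
        refine Filter.Eventually.of_forall fun x => ?_
        by_cases hx : x ∈ A <;> simp [hx]
      map_smul' := by
        intro k f
        simp only [RingHom.id_apply]
        rw [← MemLp.toLp_const_smul]
        refine MemLp.toLp_congr _ _ ?_
        refine (pb_ae g A K hg hA hK (Lp.coeFn_smul k f)).trans ?_
        refine Filter.Eventually.of_forall fun x => ?_
        by_cases hx : x ∈ A <;> simp [hx] }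
    (((K : ℝ≥0∞) ^ (1 / 2 : ℝ)).toReal) (by
      intro f
      change ‖(pb_memLp g A K hg hA hK (Lp.memLp f)).toLp _‖ ≤ _
      rw [Lp.norm_toLp, Lp.norm_def, ← ENNReal.toReal_mul]
      refine ENNReal.toReal_mono ?_ (pb_norm g A K hg hA hK (Lp.memLp f))
      exact ENNReal.mul_ne_top (ENNReal.rpow_ne_top_of_nonneg (by norm_num) ENNReal.coe_ne_top)
        (Lp.eLpNorm_ne_top f))

lemma pb_coe (hg : Measurable g) (hA : MeasurableSet A)
    (hK : (μ.restrict A).map g ≤ (K : ℝ≥0∞) • ν) (f : Lp ℂ 2 ν) :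
    pb g A K hg hA hK f =ᵐ[μ] A.indicator (f ∘ g) :=
  MemLp.coeFn_toLp (pb_memLp g A K hg hA hK (Lp.memLp f))

lemma pb_SEx (hg : Measurable g) (hA : MeasurableSet A)
    (hK : (μ.restrict A).map g ≤ (K : ℝ≥0∞) • ν) : SEx K (pb g A K hg hA hK) := by
  intro f
  have h1 : μ (Function.support (pb g A K hg hA hK f)) ≤ μ (A ∩ g ⁻¹' (Function.support f)) := by
    refine measure_mono_ae ?_
    filter_upwards [pb_coe g A K hg hA hK f] with x hx hs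
    by_contra hc
    have hc' : ¬ (x ∈ A ∧ f (g x) ≠ 0) := hc
    apply hs
    rw [hx]
    by_cases hxA : x ∈ A
    · rw [Set.indicator_of_mem hxA]
      by_contra h
      exact hc' ⟨hxA, h⟩
    · rw [Set.indicator_of_notMem hxA]
  refine h1.trans ?_
  have hm : MeasurableSet (Function.support (f : Y → ℂ)) :=
    measurableSet_support (Lp.stronglyMeasurable f).measurable
  have h2 : μ (A ∩ g ⁻¹' (Function.support f)) = (μ.restrict A).map g (Function.support f) := by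
    rw [Measure.map_apply hg hm, Measure.restrict_apply (hg hm), Set.inter_comm]
  rw [h2]
  exact hK _

end pb

end Pool.Agent.V1175.SE
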