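import Pool.Agent.V1175.SE.Main

set_option autoImplicit false

open scoped ENNReal NNReal
open MeasureTheory InnerProductSpace Filter Topology ContinuousLinearMap

namespace Pool.Agent.V1175.SE

variable {X : Type*} [MeasurableSpace X] {μ : Measure X}

/-! ### rank one operators between atoms -/

lemma supp_ind {A : Set X} (hA : MeasurableSet A) (hAf : μ A ≠ ∞) :
    μ (Function.support (indicatorConstLp 2 hA hAf (1 : ℂ))) = μ A := by
  refine measure_congr ?_
  filter_upwards [indicatorConstLp_coeFn (p := 2) (hs := hA) (hμs := hAf) (c := (1 : ℂ))] with x hx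
  refine propext ?_
  change indicatorConstLp 2 hA hAf (1 : ℂ) x ≠ 0 ↔ x ∈ A
  rw [hx]
  by_cases h : x ∈ A <;> simp [h]

lemma rankOne_atoms_SEx [MeasurableSingletonClass X] (x y : X) (hx : μ {x} ≠ ∞)
    (hy : μ {y} ≠ ∞) (hy0 : μ {y} ≠ 0) :
    SEx ((μ {x}).toNNReal / (μ {y}).toNNReal)
      (rankOne ℂ (indicatorConstLp 2 (measurableSet_singleton x) hx (1 : ℂ))
        (indicatorConstLp 2 (measurableSet_singleton y) hy (1 : ℂ))) := by
  intro ξ
  rw [rankOne_apply]
  set c : ℂ := inner ℂ (indicatorConstLp 2 (measurableSet_singleton y) hy (1 : ℂ)) ξ with hc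
  rcases eq_or_ne c 0 with h0 | h0
  · rw [h0, zero_smul]
    have : μ (Function.support ((0 : Lp ℂ 2 μ) : X → ℂ)) = 0 := by
      rw [← le_zero_iff, ← measure_empty (μ := μ)]
      refine measure_mono_ae ?_
      filter_upwards [Lp.coeFn_zero ℂ 2 μ] with x hx hs
      exact hs hx
    rw [this]
    exact zero_le
  · have h1 : μ (Function.support (c • indicatorConstLp 2 (measurableSet_singleton x) hx (1 : ℂ)
        : Lp ℂ 2 μ)) ≤ μ {x} := by
      rw [← supp_ind (measurableSet_singleton x) hx]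
      refine measure_mono_ae ?_
      filter_upwards [Lp.coeFn_smul c (indicatorConstLp 2 (measurableSet_singleton x) hx (1 : ℂ)
        : Lp ℂ 2 μ)] with z hz hs
      intro hcon
      apply hs
      rw [hz, Pi.smul_apply, hcon, smul_zero]
    have h2 : μ {y} ≤ μ (Function.support ξ) := by
      refine measure_mono ?_
      rintro z rfl
      intro hz
      apply h0
      rw [hc, L2.inner_indicatorConstLp_one]
      have : ∫ x in ({z} : Set X), ξ x ∂μ = ∫ x in ({z} : Set X), (0 : ℂ) ∂μ := by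
        refine setIntegral_congr_fun (measurableSet_singleton z) ?_
        rintro w rfl
        exact hz
      rw [this]
      simp
    refine h1.trans ?_
    have hy1 : (μ {y}).toNNReal ≠ 0 := by
      intro h
      rcases (ENNReal.toNNReal_eq_zero_iff _).1 h with h | h
      · exact hy0 h
      · exact hy h
    calc μ {x} = (((μ {x}).toNNReal / (μ {y}).toNNReal : ℝ≥0) : ℝ≥0∞) * μ {y} := by
          conv_rhs => rw [← ENNReal.coe_toNNReal hy]
          rw [← ENNReal.coe_mul, ENNReal.toNNReal_coe, div_mul_cancel₀ _ hy1,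
            ENNReal.coe_toNNReal hx]
      _ ≤ _ := by gcongr

lemma rankOne_atoms_Bs [MeasurableSingletonClass X] (x y : X) (hx : μ {x} ≠ ∞)
    (hy : μ {y} ≠ ∞) (hx0 : μ {x} ≠ 0) (hy0 : μ {y} ≠ 0) :
    Bs (rankOne ℂ (indicatorConstLp 2 (measurableSet_singleton x) hx (1 : ℂ))
        (indicatorConstLp 2 (measurableSet_singleton y) hy (1 : ℂ))) := by
  refine Bs_of (rankOne_atoms_SEx x y hx hy hy0) ?_
    (d := (μ {y}).toNNReal / (μ {x}).toNNReal)
  rw [adjoint_rankOne]
  exact rankOne_atoms_SEx y x hy hx hx0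

/-! ### no operator of bounded support expansion leads from an atomless part to an atom -/

lemma small_vanish [MeasurableSingletonClass X] {c : ℝ≥0} {a : Lp ℂ 2 μ →L[ℂ] Lp ℂ 2 μ}
    (ha : SEx c a) (x : X) (hx : μ {x} ≠ ∞) (E : Set X) (hE : MeasurableSet E) (hEf : μ E ≠ ∞)
    (hs : c * μ E < μ {x}) :
    inner ℂ (indicatorConstLp 2 (measurableSet_singleton x) hx (1 : ℂ))
      (a (indicatorConstLp 2 hE hEf (1 : ℂ))) = 0 := by
  rw [L2.inner_indicatorConstLp_one]
  have h1 := ha (indicatorConstLp 2 hE hEf (1 : ℂ))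
  rw [supp_ind] at h1
  have h2 : (a (indicatorConstLp 2 hE hEf (1 : ℂ))) x = 0 := by
    by_contra h
    have h3 : μ {x} ≤ μ (Function.support (a (indicatorConstLp 2 hE hEf (1 : ℂ)))) :=
      measure_mono (by rintro z rfl; exact h)
    exact absurd (h3.trans h1) (not_le.2 hs)
  have : ∫ z in ({x} : Set X), (a (indicatorConstLp 2 hE hEf (1 : ℂ))) z ∂μ =
      ∫ z in ({x} : Set X), (0 : ℂ) ∂μ := by
    refine setIntegral_congr_fun (measurableSet_singleton x) ?_
    rintro w rfl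
    exact h2
  rw [this]
  simp

lemma ind_congr {A B : Set X} (hA : MeasurableSet A) (hB : MeasurableSet B) (hAf : μ A ≠ ∞)
    (hBf : μ B ≠ ∞) (h : A =ᵐ[μ] B) :
    indicatorConstLp 2 hA hAf (1 : ℂ) = indicatorConstLp 2 hB hBf (1 : ℂ) := by
  refine Lp.ext ?_
  refine indicatorConstLp_coeFn.trans (Filter.EventuallyEq.trans ?_ indicatorConstLp_coeFn.symm)
  exact indicator_ae_eq_of_ae_eq_set h

lemma diffuse_vanish [StandardBorelSpace X] {a : Lp ℂ 2 μ →L[ℂ] Lp ℂ 2 μ} (ha : Bs a) (x : X)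
    (hx : μ {x} ≠ ∞) (hx0 : μ {x} ≠ 0) (D : Set X) (hD : MeasurableSet D) (hDf : μ D ≠ ∞)
    (hDn : ∀ z ∈ D, μ {z} = 0) :
    inner ℂ (indicatorConstLp 2 (measurableSet_singleton x) hx (1 : ℂ))
      (a (indicatorConstLp 2 hD hDf (1 : ℂ))) = 0 := by
  obtain ⟨c, ha, -⟩ := ha
  rcases eq_or_ne (μ D) 0 with hD0 | hD0
  · refine small_vanish ha x hx D hD hDf ?_
    rw [hD0, mul_zero]
    exact pos_iff_ne_zero.2 hx0
  -- normalised restriction
  set m : ℝ≥0 := (μ D).toNNReal with hm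
  have hmC : (m : ℝ≥0∞) = μ D := ENNReal.coe_toNNReal hDf
  have hm0 : m ≠ 0 := by
    intro h
    apply hD0
    rw [← hmC, h]; rfl
  set P : Measure X := ((m⁻¹ : ℝ≥0) : ℝ≥0∞) • μ.restrict D with hP
  have hPp : IsProbabilityMeasure P := by
    refine ⟨?_⟩
    rw [hP, Measure.smul_apply, Measure.restrict_apply_univ, ← hmC, smul_eq_mul,
      ← ENNReal.coe_mul, inv_mul_cancel₀ hm0]
    rfl
  have hPa : NullSingletonClass P := by
    refine ⟨fun z => ?_⟩
    rw [hP, Measure.smul_apply, Measure.restrict_apply (measurableSet_singleton z)]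
    have : μ ({z} ∩ D) = 0 := by
      by_cases hz : z ∈ D
      · exact measure_mono_null Set.inter_subset_left (hDn z hz)
      · rw [Set.singleton_inter_eq_empty.2 hz, measure_empty]
    rw [this, smul_zero]
  obtain ⟨F, G, hF, hG, hFP, -⟩ := iso_interval P
  -- measure of slices
  have hslice : ∀ s t : ℝ, 0 ≤ s → t ≤ 1 → μ (D ∩ F ⁻¹' Set.Ioc s t) ≤ m * ENNReal.ofReal (t - s) := by
    intro s t hs ht
    have h1 : P (F ⁻¹' Set.Ioc s t) ≤ ENNReal.ofReal (t - s) := by
      rw [← Measure.map_apply hF measurableSet_Ioc, hFP,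
        Measure.restrict_apply measurableSet_Ioc]
      refine (measure_mono Set.inter_subset_left).trans ?_
      rw [Real.volume_Ioc]
    have h2 : μ (D ∩ F ⁻¹' Set.Ioc s t) = m * P (F ⁻¹' Set.Ioc s t) := by
      rw [hP, Measure.smul_apply, smul_eq_mul, ← mul_assoc, ← ENNReal.coe_mul,
        mul_inv_cancel₀ hm0, Measure.restrict_apply (hF measurableSet_Ioc), Set.inter_comm]
      simp
    rw [h2]
    gcongr
  have hfin : ∀ s t : ℝ, μ (D ∩ F ⁻¹' Set.Ioc s t) ≠ ∞ := fun s t =>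
    ((measure_mono Set.inter_subset_left).trans_lt hDf.lt_top).ne
  have hmeas : ∀ s t : ℝ, MeasurableSet (D ∩ F ⁻¹' Set.Ioc s t) := fun s t =>
    hD.inter (hF measurableSet_Ioc)
  -- choose n
  obtain ⟨n, hn0, hn⟩ : ∃ n : ℕ, 0 < n ∧ c * (m * ENNReal.ofReal (1 / n)) < μ {x} := by
    have h1 : Tendsto (fun n : ℕ => (c : ℝ≥0∞) * (m * ENNReal.ofReal (1 / n))) atTop (𝓝 0) := by
      have h2 : Tendsto (fun n : ℕ => ENNReal.ofReal (1 / (n : ℝ))) atTop (𝓝 0) := by
        rw [← ENNReal.ofReal_zero]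
        exact ENNReal.tendsto_ofReal tendsto_one_div_atTop_nhds_zero_nat
      have h3 := ENNReal.Tendsto.const_mul (a := (m : ℝ≥0∞)) h2 (Or.inr ENNReal.coe_ne_top)
      have h4 := ENNReal.Tendsto.const_mul (a := (c : ℝ≥0∞)) h3 (Or.inr ENNReal.coe_ne_top)
      simpa using h4
    have h5 := (h1.eventually_lt_const (pos_iff_ne_zero.2 hx0)).and (eventually_gt_atTop 0)
    obtain ⟨n, hn, hn0⟩ := h5.exists
    exact ⟨n, hn0, hn⟩
  have hnR : (0 : ℝ) < n := by exact_mod_cast hn0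
  -- induction over slices
  have hind : ∀ k : ℕ, k ≤ n →
      inner ℂ (indicatorConstLp 2 (measurableSet_singleton x) hx (1 : ℂ))
        (a (indicatorConstLp 2 (hmeas 0 (k / n)) (hfin 0 (k / n)) (1 : ℂ))) = 0 := by
    intro k
    induction k with
    | zero =>
      intro _
      refine small_vanish ha x hx _ _ _ ?_
      have : D ∩ F ⁻¹' Set.Ioc (0 : ℝ) ((0 : ℕ) / n) = ∅ := by simp
      rw [this, measure_empty, mul_zero]
      exact pos_iff_ne_zero.2 hx0
    | succ k ih =>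
      intro hk
      have hdisj : Disjoint (D ∩ F ⁻¹' Set.Ioc (0 : ℝ) (k / n))
          (D ∩ F ⁻¹' Set.Ioc ((k : ℝ) / n) ((k + 1 : ℕ) / n)) := by
        rw [Set.disjoint_left]
        rintro z ⟨_, hz1⟩ ⟨_, hz2⟩
        exact absurd hz1.2 (not_le.2 hz2.1)
      have hunion : D ∩ F ⁻¹' Set.Ioc (0 : ℝ) ((k + 1 : ℕ) / n) =
          (D ∩ F ⁻¹' Set.Ioc (0 : ℝ) (k / n)) ∪
          (D ∩ F ⁻¹' Set.Ioc ((k : ℝ) / n) ((k + 1 : ℕ) / n)) := by
        rw [← Set.inter_union_distrib_left, ← Set.preimage_union, Set.Ioc_union_Ioc_eq_Ioc]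
        · positivity
        · gcongr; exact Nat.le_succ k
      have e1 : indicatorConstLp 2 (hmeas 0 ((k + 1 : ℕ) / n)) (hfin 0 ((k + 1 : ℕ) / n)) (1 : ℂ) =
          indicatorConstLp 2 (hmeas 0 (k / n)) (hfin 0 (k / n)) (1 : ℂ) +
          indicatorConstLp 2 (hmeas (k / n) ((k + 1 : ℕ) / n)) (hfin (k / n) ((k + 1 : ℕ) / n))
            (1 : ℂ) := by
        rw [← indicatorConstLp_disjoint_union (hmeas _ _) (hmeas _ _) (hfin _ _) (hfin _ _) hdisj]
        refine ind_congr _ _ _ _ ?_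
        rw [hunion]
      rw [e1, map_add, inner_add_right, ih (Nat.le_of_succ_le hk), zero_add]
      refine small_vanish ha x hx _ _ _ (lt_of_le_of_lt ?_ hn)
      gcongr
      refine (hslice _ _ (by positivity) ?_).trans ?_
      · rw [div_le_one hnR]; exact_mod_cast hk
      · gcongr
        push_cast
        rw [← sub_div]
        simp
  have hfull : D =ᵐ[μ] (D ∩ F ⁻¹' Set.Ioc (0 : ℝ) ((n : ℕ) / n) : Set X) := by
    rw [div_self hnR.ne']
    have h1 : ∀ᵐ z ∂P, F z ∈ Set.Ioo (0 : ℝ) 1 := by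
      have : ∀ᵐ t ∂(P.map F), t ∈ Set.Ioo (0 : ℝ) 1 := by
        rw [hFP]; exact ae_restrict_mem measurableSet_Ioo
      exact ae_of_ae_map hF.aemeasurable this
    have h2 : ∀ᵐ z ∂(μ.restrict D), F z ∈ Set.Ioo (0 : ℝ) 1 := by
      have h3 : (m : ℝ≥0∞) • P = μ.restrict D := by
        rw [hP, smul_smul, ← ENNReal.coe_mul, mul_inv_cancel₀ hm0]
        simp
      rw [← h3]
      exact (Measure.smul_absolutelyContinuous : (m : ℝ≥0∞) • P ≪ P).ae_le h1
    have h4 := (ae_restrict_iff' hD).1 h2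
    filter_upwards [h4] with z hz
    refine propext ⟨fun hzD => ⟨hzD, ?_⟩, fun h => h.1⟩
    have := hz hzD
    exact ⟨this.1, this.2.le⟩
  rw [ind_congr hD (hmeas 0 (n / n)) hDf (hfin 0 (n / n)) hfull]
  exact hind n le_rfl

end Pool.Agent.V1175.SE
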