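import Mathlib

/-! The Schur-type inequality on `ℤ²` behind the spectral gap of the Sanov group on the torus. -/

set_option autoImplicit false

open scoped ENNReal

namespace Pool.Agent.V1175.SE

/-- the four shears of `ℤ²` -/
def sh (i : Fin 4) (n : Fin 2 → ℤ) : Fin 2 → ℤ :=
  match i with
  | 0 => ![n 0, n 1 + 2 * n 0]
  | 1 => ![n 0, n 1 - 2 * n 0]
  | 2 => ![n 0 + 2 * n 1, n 1]
  | 3 => ![n 0 - 2 * n 1, n 1]

/-- the index of the inverse shear -/
def iv (i : Fin 4) : Fin 4 :=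
  match i with
  | 0 => 1
  | 1 => 0
  | 2 => 3
  | 3 => 2

lemma iv_iv (i : Fin 4) : iv (iv i) = i := by fin_cases i <;> rfl

lemma sh_sh (i : Fin 4) (n : Fin 2 → ℤ) : sh (iv i) (sh i n) = n := by
  fin_cases i <;> (funext j; fin_cases j <;> simp [sh, iv])

lemma sh_sh' (i : Fin 4) (n : Fin 2 → ℤ) : sh i (sh (iv i) n) = n := by
  have := sh_sh (iv i) n
  rwa [iv_iv] at this

/-- the shear as an equivalence -/
def she (i : Fin 4) : (Fin 2 → ℤ) ≃ (Fin 2 → ℤ) where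
  toFun := sh i
  invFun := sh (iv i)
  left_inv := sh_sh i
  right_inv := sh_sh' i

lemma sh_zero (i : Fin 4) : sh i 0 = 0 := by
  fin_cases i <;> (funext j; fin_cases j <;> simp [sh])

/-- size of a lattice point -/
def sz (n : Fin 2 → ℤ) : ℕ := max (n 0).natAbs (n 1).natAbs

/-- Schur weights -/
noncomputable def wt (n m : Fin 2 → ℤ) : ℝ :=
  if sz n < sz m then 1 / 2 else if sz m < sz n then 2 else 1

lemma wt_pos (n m : Fin 2 → ℤ) : 0 < wt n m := by
  unfold wt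
  split_ifs <;> norm_num

lemma wt_mul (n m : Fin 2 → ℤ) : wt n m * wt m n = 1 := by
  unfold wt
  split_ifs <;> first | (exfalso; omega) | (norm_num; done)

lemma sz_sh0 (n : Fin 2 → ℤ) : sz (sh 0 n) = max (n 0).natAbs (n 1 + 2 * n 0).natAbs := rfl
lemma sz_sh1 (n : Fin 2 → ℤ) : sz (sh 1 n) = max (n 0).natAbs (n 1 - 2 * n 0).natAbs := rfl
lemma sz_sh2 (n : Fin 2 → ℤ) : sz (sh 2 n) = max (n 0 + 2 * n 1).natAbs (n 1).natAbs := rfl
lemma sz_sh3 (n : Fin 2 → ℤ) : sz (sh 3 n) = max (n 0 - 2 * n 1).natAbs (n 1).natAbs := rfl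

lemma ne_zero_iff' (n : Fin 2 → ℤ) (h : n ≠ 0) : n 0 ≠ 0 ∨ n 1 ≠ 0 := by
  by_contra hc
  push Not at hc
  apply h
  funext j
  fin_cases j
  · exact hc.1
  · exact hc.2

lemma wt_lt {n m : Fin 2 → ℤ} (h : sz n < sz m) : wt n m = 1 / 2 := if_pos h

lemma wt_gt {n m : Fin 2 → ℤ} (h : sz m < sz n) : wt n m = 2 := by
  unfold wt
  rw [if_neg (by omega), if_pos h]

lemma wt_eq {n m : Fin 2 → ℤ} (h : sz m = sz n) : wt n m = 1 := by
  unfold wt
  rw [if_neg (by omega), if_neg (by omega)]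

lemma arith1 (a b : ℤ) (h : b.natAbs < a.natAbs) :
    max a.natAbs b.natAbs < max a.natAbs (b + 2 * a).natAbs ∧
    max a.natAbs b.natAbs < max a.natAbs (b - 2 * a).natAbs := by
  constructor <;> omega

lemma arith2 (a b : ℤ) (h : b.natAbs < a.natAbs) (hb : b ≠ 0) :
    (max a.natAbs b.natAbs < max (a + 2 * b).natAbs b.natAbs ∧
     max (a - 2 * b).natAbs b.natAbs < max a.natAbs b.natAbs) ∨
    (max a.natAbs b.natAbs < max (a - 2 * b).natAbs b.natAbs ∧
     max (a + 2 * b).natAbs b.natAbs < max a.natAbs b.natAbs) := by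
  omega

lemma arith3 (a b : ℤ) (h : b.natAbs = a.natAbs) (hb : b ≠ 0) :
    ((max a.natAbs b.natAbs < max (a + 2 * b).natAbs b.natAbs ∧
     max (a - 2 * b).natAbs b.natAbs = max a.natAbs b.natAbs)) ∨
    ((max a.natAbs b.natAbs < max (a - 2 * b).natAbs b.natAbs ∧
     max (a + 2 * b).natAbs b.natAbs = max a.natAbs b.natAbs)) := by
  omega

lemma wt_sum (n : Fin 2 → ℤ) (h : n ≠ 0) : ∑ i, wt n (sh i n) ≤ 7 / 2 := by
  have h' := ne_zero_iff' n h
  rw [Fin.sum_univ_four]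
  rcases lt_trichotomy (n 1).natAbs (n 0).natAbs with hc | hc | hc
  · obtain ⟨h0, h1⟩ := arith1 (n 0) (n 1) hc
    rw [wt_lt (m := sh 0 n) h0, wt_lt (m := sh 1 n) h1]
    rcases eq_or_ne (n 1) 0 with hb | hb
    · rw [wt_eq (m := sh 2 n) (by rw [sz_sh2, hb]; simp [sz, hb]),
        wt_eq (m := sh 3 n) (by rw [sz_sh3, hb]; simp [sz, hb])]
      norm_num
    · rcases arith2 (n 0) (n 1) hc hb with ⟨h2, h3⟩ | ⟨h3, h2⟩
      · rw [wt_lt (m := sh 2 n) h2, wt_gt (m := sh 3 n) h3]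
        norm_num
      · rw [wt_gt (m := sh 2 n) h2, wt_lt (m := sh 3 n) h3]
        norm_num
  · have hb : n 1 ≠ 0 := by omega
    have ha : n 0 ≠ 0 := by omega
    have e1 : wt n (sh 2 n) + wt n (sh 3 n) ≤ 3 / 2 := by
      rcases arith3 (n 0) (n 1) hc hb with ⟨h2, h3⟩ | ⟨h3, h2⟩
      · rw [wt_lt (m := sh 2 n) h2, wt_eq (m := sh 3 n) h3]
        norm_num
      · rw [wt_eq (m := sh 2 n) h2, wt_lt (m := sh 3 n) h3]
        norm_num
    have e2 : wt n (sh 0 n) + wt n (sh 1 n) ≤ 3 / 2 := by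
      rcases arith3 (n 1) (n 0) hc.symm ha with ⟨h2, h3⟩ | ⟨h3, h2⟩
      · rw [wt_lt (m := sh 0 n) (by rw [sz_sh0, sz, max_comm, max_comm (n 0).natAbs]; exact h2),
          wt_eq (m := sh 1 n) (by rw [sz_sh1, sz, max_comm, max_comm (n 0).natAbs]; exact h3)]
        norm_num
      · rw [wt_eq (m := sh 0 n) (by rw [sz_sh0, sz, max_comm, max_comm (n 0).natAbs]; exact h2),
          wt_lt (m := sh 1 n) (by rw [sz_sh1, sz, max_comm, max_comm (n 0).natAbs]; exact h3)]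
        norm_num
    linarith
  · obtain ⟨h2, h3⟩ := arith1 (n 1) (n 0) hc
    rw [wt_lt (m := sh 2 n) (by rw [sz_sh2, sz, max_comm, max_comm _ (n 1).natAbs]; exact h2),
      wt_lt (m := sh 3 n) (by rw [sz_sh3, sz, max_comm, max_comm _ (n 1).natAbs]; exact h3)]
    rcases eq_or_ne (n 0) 0 with hb | hb
    · rw [wt_eq (m := sh 0 n) (by rw [sz_sh0, hb]; simp [sz, hb]),
        wt_eq (m := sh 1 n) (by rw [sz_sh1, hb]; simp [sz, hb])]
      norm_num
    · rcases arith2 (n 1) (n 0) hc hb with ⟨h0, h1⟩ | ⟨h1, h0⟩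
      · rw [wt_lt (m := sh 0 n) (by rw [sz_sh0, sz, max_comm, max_comm (n 0).natAbs]; exact h0),
          wt_gt (m := sh 1 n) (by rw [sz_sh1, sz, max_comm, max_comm (n 0).natAbs]; exact h1)]
        norm_num
      · rw [wt_gt (m := sh 0 n) (by rw [sz_sh0, sz, max_comm, max_comm (n 0).natAbs]; exact h0),
          wt_lt (m := sh 1 n) (by rw [sz_sh1, sz, max_comm, max_comm (n 0).natAbs]; exact h1)]
        norm_num

end Pool.Agent.V1175.SE
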