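import Mathlib

set_option autoImplicit false

open scoped ENNReal NNReal
open MeasureTheory InnerProductSpace Filter Topology ContinuousLinearMap

namespace Pool.Agent.V1175.SE

/-! ### Compact operators are limits of finite sums of rank one operators -/

variable {H : Type*} [NormedAddCommGroup H] [InnerProductSpace ℂ H] [CompleteSpace H]

lemma compact_mem (S : Submodule ℂ (H →L[ℂ] H)) (hcl : IsClosed (S : Set (H →L[ℂ] H)))
    (hS : ∀ x y : H, rankOne ℂ x y ∈ S) (T : H →L[ℂ] H) (hT : IsCompactOperator T) : T ∈ S := by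
  have key : ∀ ε : ℝ, 0 < ε → ∃ R ∈ S, ‖T - R‖ ≤ ε := by
    intro ε hε
    have h1 : IsCompact (closure (T '' Metric.closedBall 0 1)) :=
      hT.isCompact_closure_image_closedBall 1
    obtain ⟨t, -, htf, ht⟩ := h1.totallyBounded.exists_subset (Metric.dist_mem_uniformity hε)
    set K : Submodule ℂ H := Submodule.span ℂ t with hK
    have hfd : FiniteDimensional ℂ K := FiniteDimensional.span_of_finite ℂ htf
    let b := stdOrthonormalBasis ℂ K
    refine ⟨K.starProjection ∘L T, ?_, ?_⟩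
    · have h2 : K.starProjection = ∑ i, rankOne ℂ (b i : H) (b i : H) :=
        b.starProjection_eq_sum_rankOne
      rw [h2]
      have h3 : (∑ i, rankOne ℂ (b i : H) (b i : H)) ∘L T =
          ∑ i, (rankOne ℂ (b i : H) (b i : H)) ∘L T := by
        ext x
        simp
      rw [h3]
      refine S.sum_mem fun i _ => ?_
      rw [rankOne_comp]
      exact hS _ _
    · refine opNorm_le_bound _ hε.le fun x => ?_
      rcases eq_or_ne x 0 with rfl | hx
      · simp
      have hxn : 0 < ‖x‖ := norm_pos_iff.2 hx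
      set y : H := ((‖x‖⁻¹ : ℝ) : ℂ) • x with hy
      have hyn : ‖y‖ ≤ 1 := by
        rw [hy, norm_smul]
        simp [hxn.ne']
      have h4 : T y ∈ closure (T '' Metric.closedBall 0 1) :=
        subset_closure ⟨y, by simpa using hyn, rfl⟩
      have h5 := ht h4
      simp only [Set.mem_iUnion, Set.mem_ofPred_eq] at h5
      obtain ⟨z, hz, hzd⟩ := h5
      have h6 : ‖T y - K.starProjection (T y)‖ ≤ ε := by
        have h7 : ‖T y - K.starProjection (T y)‖ ≤ ‖T y - z‖ := by
          rw [Submodule.starProjection_minimal (U := K) (T y)]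
          exact ciInf_le ⟨0, by rintro _ ⟨w, rfl⟩; exact norm_nonneg _⟩
            (⟨z, Submodule.subset_span hz⟩ : K)
        refine h7.trans ?_
        rw [← dist_eq_norm]
        exact hzd.le
      have h8 : x = (‖x‖ : ℂ) • y := by
        rw [hy, smul_smul, ← Complex.ofReal_mul, mul_inv_cancel₀ hxn.ne']
        simp
      have h9 : (T - K.starProjection ∘L T) x = (‖x‖ : ℂ) • (T y - K.starProjection (T y)) := by
        conv_lhs => rw [h8]
        rw [map_smul]
        rfl
      rw [h9, norm_smul]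
      simp only [Complex.norm_real, norm_norm]
      rw [mul_comm]
      gcongr
  have : T ∈ closure (S : Set (H →L[ℂ] H)) := by
    rw [Metric.mem_closure_iff]
    intro ε hε
    obtain ⟨R, hR, hTR⟩ := key (ε / 2) (by positivity)
    exact ⟨R, hR, by rw [dist_eq_norm]; linarith⟩
  rwa [hcl.closure_eq] at this

/-! ### reduction to indicators -/

variable {X : Type*} [MeasurableSpace X] {μ : Measure X}

lemma ind_smul {s : Set X} (hs : MeasurableSet s) (hμs : μ s ≠ ∞) (c : ℂ) :
    indicatorConstLp 2 hs hμs c = c • indicatorConstLp 2 hs hμs (1 : ℂ) := by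
  refine Lp.ext ?_
  refine indicatorConstLp_coeFn.trans ?_
  refine Filter.EventuallyEq.trans ?_ (Lp.coeFn_smul _ _).symm
  filter_upwards [indicatorConstLp_coeFn (p := 2) (hs := hs) (hμs := hμs) (c := (1 : ℂ))] with x hx
  rw [Pi.smul_apply, hx]
  by_cases h : x ∈ s <;> simp [h]

lemma rankOne_mem (S : Submodule ℂ (Lp ℂ 2 μ →L[ℂ] Lp ℂ 2 μ))
    (hcl : IsClosed (S : Set (Lp ℂ 2 μ →L[ℂ] Lp ℂ 2 μ)))
    (hS : ∀ (A B : Set X) (hA : MeasurableSet A) (hB : MeasurableSet B) (hAf : μ A ≠ ∞)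
      (hBf : μ B ≠ ∞), rankOne ℂ (indicatorConstLp 2 hA hAf (1 : ℂ))
        (indicatorConstLp 2 hB hBf (1 : ℂ)) ∈ S) (x y : Lp ℂ 2 μ) : rankOne ℂ x y ∈ S := by
  have h1 : ∀ (B : Set X) (hB : MeasurableSet B) (hBf : μ B ≠ ∞) (x : Lp ℂ 2 μ),
      rankOne ℂ x (indicatorConstLp 2 hB hBf (1 : ℂ)) ∈ S := by
    intro B hB hBf x
    refine Lp.induction (p := 2) (by norm_num)
      (motive := fun x => rankOne ℂ x (indicatorConstLp 2 hB hBf (1 : ℂ)) ∈ S) ?_ ?_ ?_ x
    · intro c s hs hμs
      have : (Lp.simpleFunc.indicatorConst 2 hs hμs.ne c : Lp ℂ 2 μ) =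
          c • indicatorConstLp 2 hs hμs.ne (1 : ℂ) := by
        rw [Lp.simpleFunc.coe_indicatorConst]
        exact ind_smul hs hμs.ne c
      rw [this, map_smul]
      exact S.smul_mem _ (hS s B hs hB hμs.ne hBf)
    · intro f g hf hg _ hf' hg'
      rw [map_add]
      exact S.add_mem hf' hg'
    · have : {f : Lp ℂ 2 μ | rankOne ℂ f (indicatorConstLp 2 hB hBf (1 : ℂ)) ∈ S} =
          (fun f : Lp ℂ 2 μ => rankOne ℂ f (indicatorConstLp 2 hB hBf (1 : ℂ))) ⁻¹' S := rfl
      rw [this]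
      refine hcl.preimage ?_
      exact (ContinuousLinearMap.smulRightL ℂ (Lp ℂ 2 μ) (Lp ℂ 2 μ)
        (innerSL ℂ (indicatorConstLp 2 hB hBf (1 : ℂ)))).continuous
  refine Lp.induction (p := 2) (by norm_num) (motive := fun y => rankOne ℂ x y ∈ S) ?_ ?_ ?_ y
  · intro c s hs hμs
    have : (Lp.simpleFunc.indicatorConst 2 hs hμs.ne c : Lp ℂ 2 μ) =
        c • indicatorConstLp 2 hs hμs.ne (1 : ℂ) := by
      rw [Lp.simpleFunc.coe_indicatorConst]
      exact ind_smul hs hμs.ne c
    rw [this, map_smulₛₗ]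
    exact S.smul_mem _ (h1 s hs hμs.ne x)
  · intro f g hf hg _ hf' hg'
    rw [map_add]
    exact S.add_mem hf' hg'
  · have : {f : Lp ℂ 2 μ | rankOne ℂ x f ∈ S} = (fun f : Lp ℂ 2 μ => rankOne ℂ x f) ⁻¹' S := rfl
    rw [this]
    exact hcl.preimage (rankOne ℂ x).continuous

end Pool.Agent.V1175.SE
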