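import Mathlib

set_option autoImplicit false

open scoped ENNReal NNReal
open MeasureTheory Filter Topology ProbabilityTheory

namespace Pool.Agent.V1175.SE

/-! ### Measure isomorphism with the unit interval -/

section cdfpart

variable (P : Measure ℝ) [IsProbabilityMeasure P] [NullSingletonClass P]

lemma cdf_cont : Continuous (cdf P) := by
  rw [continuous_iff_continuousAt]
  intro x
  rw [(monotone_cdf P).continuousAt_iff_leftLim_eq_rightLim]
  have h1 : (cdf P).measure {x} = ENNReal.ofReal (cdf P x - Function.leftLim (cdf P) x) :=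
    StieltjesFunction.measure_singleton _ _
  rw [measure_cdf, measure_singleton] at h1
  have h2 : cdf P x - Function.leftLim (cdf P) x ≤ 0 := ENNReal.ofReal_eq_zero.1 h1.symm
  have h3 : Function.leftLim (cdf P) x ≤ cdf P x := (monotone_cdf P).leftLim_le le_rfl
  have h4 : Function.rightLim (cdf P) x = cdf P x := StieltjesFunction.rightLim_eq _ _
  rw [h4]
  linarith

/-- the law of the distribution function -/
lemma map_cdf : P.map (cdf P) = (volume : Measure ℝ).restrict (Set.Ioo 0 1) := by
  have hm : Measurable (cdf P) := (monotone_cdf P).measurable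
  have : IsProbabilityMeasure (P.map (cdf P)) := Measure.isProbabilityMeasure_map hm.aemeasurable
  refine Measure.ext_of_Iic _ _ fun t => ?_
  rw [Measure.map_apply hm measurableSet_Iic, Measure.restrict_apply measurableSet_Iic]
  rcases le_or_gt t 0 with ht | ht
  · have e1 : (Set.Iic t ∩ Set.Ioo (0 : ℝ) 1) = ∅ := by
      ext x; simp only [Set.mem_inter_iff, Set.mem_Iic, Set.mem_Ioo, Set.mem_empty_iff_false,
        iff_false]; rintro ⟨h1, h2, _⟩; linarith
    rw [e1, measure_empty]
    by_contra hc
    -- the set `{F ≤ 0}` is contained in a null set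
    have hsub : ∀ x ∈ (cdf P) ⁻¹' Set.Iic t, P (Set.Iic x) = 0 := by
      intro x hx
      rw [← ofReal_cdf]
      exact ENNReal.ofReal_eq_zero.2 (le_trans hx ht)
    set S := (cdf P) ⁻¹' Set.Iic t with hS
    have hne : S.Nonempty := by
      by_contra h
      rw [Set.not_nonempty_iff_eq_empty] at h
      rw [h, measure_empty] at hc
      exact hc rfl
    apply hc
    by_cases hb : BddAbove S
    · have h1 : S ⊆ Set.Iic (sSup S) := fun x hx => le_csSup hb hx
      have h2 : sSup S ∈ S := by
        have hcl : IsClosed S := isClosed_Iic.preimage (cdf_cont P)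
        exact hcl.csSup_mem hne hb
      exact measure_mono_null h1 (hsub _ h2)
    · exfalso
      have h1 : Tendsto (cdf P) atTop (𝓝 1) := tendsto_cdf_atTop P
      have h2 : ∀ x, cdf P x ≤ 0 := by
        intro x
        rw [not_bddAbove_iff] at hb
        obtain ⟨y, hy, hxy⟩ := hb x
        exact ((monotone_cdf P) hxy.le).trans (le_trans hy ht)
      have := le_of_tendsto' h1 h2
      norm_num at this
  rcases le_or_gt 1 t with ht1 | ht1
  · have e1 : (Set.Iic t ∩ Set.Ioo (0 : ℝ) 1) = Set.Ioo 0 1 := by
      ext x; simp only [Set.mem_inter_iff, Set.mem_Iic, Set.mem_Ioo]; constructor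
      · rintro ⟨_, h⟩; exact h
      · rintro h; exact ⟨by linarith [h.2], h⟩
    have e2 : (cdf P) ⁻¹' Set.Iic t = Set.univ := by
      ext x; simp only [Set.mem_preimage, Set.mem_Iic, Set.mem_univ, iff_true]
      exact (cdf_le_one P x).trans ht1
    rw [e1, e2, measure_univ, Real.volume_Ioo]; simp
  · have e1 : (Set.Iic t ∩ Set.Ioo (0 : ℝ) 1) = Set.Ioc 0 t := by
      ext x; simp only [Set.mem_inter_iff, Set.mem_Iic, Set.mem_Ioo, Set.mem_Ioc]; constructor
      · rintro ⟨h, h'⟩; exact ⟨h'.1, h⟩
      · rintro h; exact ⟨h.2, h.1, by linarith [h.2]⟩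
    rw [e1, Real.volume_Ioc, sub_zero]
    have hS2 : ∃ s, cdf P s = t := by
      have h1 : Tendsto (cdf P) atTop (𝓝 1) := tendsto_cdf_atTop P
      have h2 : Tendsto (cdf P) atBot (𝓝 0) := tendsto_cdf_atBot P
      obtain ⟨a, ha⟩ := (h2.eventually_lt_const ht).exists
      obtain ⟨b, hb⟩ := (h1.eventually_const_lt ht1).exists
      exact mem_range_of_exists_le_of_exists_ge (cdf_cont P) ⟨a, ha.le⟩ ⟨b, hb.le⟩
    set S := (cdf P) ⁻¹' Set.Iic t with hS
    obtain ⟨s0, hs0⟩ := hS2
    have hne : S.Nonempty := ⟨s0, by simp [hS, hs0]⟩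
    have hb : BddAbove S := by
      have h1 : Tendsto (cdf P) atTop (𝓝 1) := tendsto_cdf_atTop P
      obtain ⟨b, hb⟩ := (h1.eventually_const_lt ht1).exists
      refine ⟨b, fun x hx => ?_⟩
      by_contra h
      push Not at h
      have := (monotone_cdf P) h.le
      have h3 : cdf P x ≤ t := hx
      linarith
    have h2 : sSup S ∈ S := by
      have hcl : IsClosed S := isClosed_Iic.preimage (cdf_cont P)
      exact hcl.csSup_mem hne hb
    have h3 : S = Set.Iic (sSup S) := by
      ext x
      constructor
      · intro hx; exact le_csSup hb hx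
      · intro hx
        exact ((monotone_cdf P) hx).trans h2
    have h4 : cdf P (sSup S) = t := by
      refine le_antisymm h2 ?_
      rw [← hs0]
      exact (monotone_cdf P) (le_csSup hb (by simp [hS, hs0]))
    rw [h3, ← ofReal_cdf, h4]

lemma cdf_inj : ∃ N : Set ℝ, MeasurableSet N ∧ P N = 0 ∧ Set.InjOn (cdf P) Nᶜ := by
  have hm : Measurable (cdf P) := (monotone_cdf P).measurable
  refine ⟨⋃ q : ℚ, (cdf P) ⁻¹' {cdf P q}, ?_, ?_, ?_⟩
  · exact MeasurableSet.iUnion fun q => hm (measurableSet_singleton _)
  · rw [measure_iUnion_null_iff]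
    intro q
    rw [← Measure.map_apply hm (measurableSet_singleton _), map_cdf]
    exact measure_singleton _
  · have key : ∀ x y : ℝ, x ∈ (⋃ q : ℚ, (cdf P) ⁻¹' {cdf P q})ᶜ →
        x < y → cdf P x ≠ cdf P y := by
      intro x y hx hxy he
      obtain ⟨q, hq1, hq2⟩ := exists_rat_btwn hxy
      apply hx
      refine Set.mem_iUnion.2 ⟨q, ?_⟩
      simp only [Set.mem_preimage, Set.mem_singleton_iff]
      exact le_antisymm ((monotone_cdf P) hq1.le) (he ▸ (monotone_cdf P) hq2.le)
    intro x hx y hy he
    rcases lt_trichotomy x y with h | h | h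
    · exact absurd he (key x y hx h)
    · exact h
    · exact absurd he.symm (key y x hy h)

end cdfpart

/-- Every atomless standard Borel probability space is isomorphic modulo null sets to the unit
interval. -/
theorem iso_interval {X : Type*} [MeasurableSpace X] [StandardBorelSpace X] (P : Measure X)
    [IsProbabilityMeasure P] [NullSingletonClass P] :
    ∃ (F : X → ℝ) (G : ℝ → X), Measurable F ∧ Measurable G ∧
      P.map F = (volume : Measure ℝ).restrict (Set.Ioo 0 1) ∧ ∀ᵐ x ∂P, G (F x) = x := by
  obtain ⟨e, he⟩ := exists_measurableEmbedding_real X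
  have : IsProbabilityMeasure (P.map e) := Measure.isProbabilityMeasure_map he.measurable.aemeasurable
  have : NullSingletonClass (P.map e) := by
    refine ⟨fun x => ?_⟩
    rw [Measure.map_apply he.measurable (measurableSet_singleton _)]
    refine Set.Subsingleton.measure_zero ?_ _
    intro a ha b hb
    exact he.injective (by
      simp only [Set.mem_preimage, Set.mem_singleton_iff] at ha hb
      rw [ha, hb])
  obtain ⟨N, hN, hN0, hinj⟩ := cdf_inj (P.map e)
  have hm : Measurable (cdf (P.map e)) := (monotone_cdf _).measurable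
  set F : X → ℝ := fun x => cdf (P.map e) (e x) with hF
  have hFm : Measurable F := hm.comp he.measurable
  set S : Set X := (e ⁻¹' N)ᶜ with hS
  have hSm : MeasurableSet S := (he.measurable hN).compl
  have : StandardBorelSpace S := hSm.standardBorel
  have hPS : P Sᶜ = 0 := by
    rw [hS, compl_compl, ← Measure.map_apply he.measurable hN]
    exact hN0
  have hemb : MeasurableEmbedding (fun x : S => F x) := by
    refine Measurable.measurableEmbedding (hFm.comp measurable_subtype_coe) ?_
    intro x y hxy
    have h1 : e x = e y := hinj (by exact x.2) (by exact y.2) hxy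
    exact Subtype.ext (he.injective h1)
  have hne : Nonempty X := by
    by_contra h
    rw [not_nonempty_iff] at h
    have : P Set.univ = 0 := by
      rw [Set.univ_eq_empty_iff.2 h, measure_empty]
    rw [measure_univ] at this
    exact one_ne_zero this
  obtain ⟨G, hG, hGF⟩ := hemb.exists_measurable_extend (measurable_subtype_coe (p := fun x => x ∈ S))
    (fun _ => hne)
  refine ⟨F, G, hFm, hG, ?_, ?_⟩
  · rw [← map_cdf (P.map e), Measure.map_map hm he.measurable]
    rfl
  · have : ∀ᵐ x ∂P, x ∈ S := by
      rw [ae_iff]; exact hPS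
    filter_upwards [this] with x hx
    exact congrFun hGF ⟨x, hx⟩

/-- Any two atomless standard Borel probability spaces are isomorphic modulo null sets. -/
theorem iso_two {X Y : Type*} [MeasurableSpace X] [StandardBorelSpace X] (P : Measure X)
    [IsProbabilityMeasure P] [NullSingletonClass P] [MeasurableSpace Y] [StandardBorelSpace Y]
    (Q : Measure Y) [IsProbabilityMeasure Q] [NullSingletonClass Q] :
    ∃ (p : X → Y) (r : Y → X), MeasurePreserving p P Q ∧ MeasurePreserving r Q P ∧
      ∀ᵐ x ∂P, r (p x) = x := by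
  obtain ⟨F, G, hF, hG, hFP, hGF⟩ := iso_interval P
  obtain ⟨F', G', hF', hG', hFQ, hGF'⟩ := iso_interval Q
  have hGmap : (volume.restrict (Set.Ioo (0 : ℝ) 1)).map G = P := by
    rw [← hFP, Measure.map_map hG hF]
    have : (G ∘ F) =ᵐ[P] id := hGF
    rw [Measure.map_congr this, Measure.map_id]
  have hGmap' : (volume.restrict (Set.Ioo (0 : ℝ) 1)).map G' = Q := by
    rw [← hFQ, Measure.map_map hG' hF']
    have : (G' ∘ F') =ᵐ[Q] id := hGF'
    rw [Measure.map_congr this, Measure.map_id]
  refine ⟨G' ∘ F, G ∘ F', ⟨hG'.comp hF, ?_⟩, ⟨hG.comp hF', ?_⟩, ?_⟩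
  · rw [← Measure.map_map hG' hF, hFP, hGmap']
  · rw [← Measure.map_map hG hF', hFQ, hGmap]
  · -- `F' ∘ G' = id` a.e. on the interval
    have h1 : ∀ᵐ t ∂(volume.restrict (Set.Ioo (0 : ℝ) 1)), F' (G' t) = t := by
      rw [← hFQ]
      refine (ae_map_iff hF'.aemeasurable
        (measurableSet_eq_fun (hF'.comp hG') measurable_id)).2 ?_
      filter_upwards [hGF'] with y hy
      simp only [Function.comp_apply, id]
      rw [hy]
    rw [← hFP] at h1
    have h2 := ae_of_ae_map hF.aemeasurable h1
    filter_upwards [h2, hGF] with x hx hx'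
    simp only [Function.comp_apply]
    rw [hx, hx']

end Pool.Agent.V1175.SE
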