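import Pool.Agent.V1175.SE.Schur

set_option autoImplicit false

open scoped ENNReal
open MeasureTheory InnerProductSpace Filter Topology

namespace Pool.Agent.V1175.SE

attribute [local instance] instMeasureSpaceUnitAddCircle

local instance haarInst : Measure.IsAddHaarMeasure (volume : Measure UnitAddCircle) :=
  inferInstanceAs (Measure.IsAddHaarMeasure AddCircle.haarAddCircle)

local instance probInst : IsProbabilityMeasure (volume : Measure UnitAddCircle) :=
  inferInstanceAs (IsProbabilityMeasure AddCircle.haarAddCircle)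

/-- the two-dimensional torus -/
abbrev TT : Type := UnitAddTorus (Fin 2)

/-- the four shears of the torus -/
def tm (i : Fin 4) : TT →+ TT :=
  match i with
  | 0 => { toFun := fun z => ![z 0 + (2 : ℕ) • z 1, z 1]
           map_zero' := by funext j; fin_cases j <;> simp
           map_add' := by intro x y; funext j; fin_cases j <;> simp; abel }
  | 1 => { toFun := fun z => ![z 0 - (2 : ℕ) • z 1, z 1]
           map_zero' := by funext j; fin_cases j <;> simp
           map_add' := by intro x y; funext j; fin_cases j <;> simp; abel }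
  | 2 => { toFun := fun z => ![z 0, z 1 + (2 : ℕ) • z 0]
           map_zero' := by funext j; fin_cases j <;> simp
           map_add' := by intro x y; funext j; fin_cases j <;> simp; abel }
  | 3 => { toFun := fun z => ![z 0, z 1 - (2 : ℕ) • z 0]
           map_zero' := by funext j; fin_cases j <;> simp
           map_add' := by intro x y; funext j; fin_cases j <;> simp; abel }

lemma tm_tm (i : Fin 4) (z : TT) : tm i (tm (iv i) z) = z := by
  fin_cases i <;> (funext j; fin_cases j <;> simp [tm, iv])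

lemma tm_tm' (i : Fin 4) (z : TT) : tm (iv i) (tm i z) = z := by
  have := tm_tm (iv i) z
  rwa [iv_iv] at this

lemma tm_cont (i : Fin 4) : Continuous (tm i) := by
  refine continuous_pi fun j => ?_
  fin_cases i <;> fin_cases j <;> simp only [tm, AddMonoidHom.coe_mk, ZeroHom.coe_mk] <;>
    simp <;> fun_prop

lemma tm_mp (i : Fin 4) : MeasurePreserving (tm i) (volume : Measure TT) volume :=
  AddMonoidHom.measurePreserving (tm_cont i) (fun z => ⟨tm (iv i) z, tm_tm i z⟩) rfl

lemma fo_add (a b : ℤ) (x y : UnitAddCircle) :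
    fourier a x * fourier b y = ((AddCircle.toCircle (a • x + b • y) : Circle) : ℂ) := by
  rw [fourier_apply, fourier_apply, ← Circle.coe_mul, ← AddCircle.toCircle_add]

lemma mF_tm (i : Fin 4) (n : Fin 2 → ℤ) (z : TT) :
    UnitAddTorus.mFourier n (tm i z) = UnitAddTorus.mFourier (sh i n) z := by
  simp only [UnitAddTorus.mFourier, ContinuousMap.coe_mk, Fin.prod_univ_two]
  rw [fo_add, fo_add]
  refine congrArg (fun w => ((AddCircle.toCircle w : Circle) : ℂ)) ?_
  fin_cases i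
  · change n 0 • (z 0 + (2 : ℕ) • z 1) + n 1 • z 1 = n 0 • z 0 + (n 1 + 2 * n 0) • z 1
    module
  · change n 0 • (z 0 - (2 : ℕ) • z 1) + n 1 • z 1 = n 0 • z 0 + (n 1 - 2 * n 0) • z 1
    module
  · change n 0 • z 0 + n 1 • (z 1 + (2 : ℕ) • z 0) = (n 0 + 2 * n 1) • z 0 + n 1 • z 1
    module
  · change n 0 • z 0 + n 1 • (z 1 - (2 : ℕ) • z 0) = (n 0 - 2 * n 1) • z 0 + n 1 • z 1
    module

/-- `L²` of the torus -/
abbrev HT : Type := Lp ℂ 2 (volume : Measure TT)

/-- the Koopman isometries of the shears -/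
noncomputable def UT (i : Fin 4) : HT →ₗᵢ[ℂ] HT := Lp.compMeasurePreservingₗᵢ ℂ (tm i) (tm_mp i)

lemma UT_ae (i : Fin 4) (f : HT) : UT i f =ᵐ[volume] f ∘ tm i :=
  Lp.coeFn_compMeasurePreserving f (tm_mp i)

lemma UT_e (i : Fin 4) (n : Fin 2 → ℤ) :
    UT i (UnitAddTorus.mFourierLp 2 n) = UnitAddTorus.mFourierLp 2 (sh i n) := by
  refine Lp.ext ?_
  refine (UT_ae i _).trans ?_
  have h1 := (tm_mp i).quasiMeasurePreserving.ae_eq (UnitAddTorus.coeFn_mFourierLp 2 n)
  refine h1.trans ?_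
  refine Filter.EventuallyEq.trans ?_ (UnitAddTorus.coeFn_mFourierLp 2 (sh i n)).symm
  exact Filter.Eventually.of_forall fun z => mF_tm i n z

lemma UT_coeff (i : Fin 4) (f : HT) (n : Fin 2 → ℤ) :
    UnitAddTorus.mFourierBasis.repr (UT i f) n =
      UnitAddTorus.mFourierBasis.repr f (sh (iv i) n) := by
  rw [HilbertBasis.repr_apply_apply, HilbertBasis.repr_apply_apply, UnitAddTorus.coe_mFourierBasis]
  conv_lhs => rw [← sh_sh' i n, ← UT_e i]
  exact (UT i).inner_map_map _ _

/-- the averaging operator -/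
noncomputable def MT : HT →L[ℂ] HT := (1 / 4 : ℂ) • ∑ i, (UT i).toContinuousLinearMap

lemma MT_apply (f : HT) : MT f = (1 / 4 : ℂ) • ∑ i, UT i f := by
  simp [MT]

lemma MT_coeff (f : HT) (n : Fin 2 → ℤ) :
    UnitAddTorus.mFourierBasis.repr (MT f) n =
      (1 / 4 : ℂ) * ∑ i, UnitAddTorus.mFourierBasis.repr f (sh i n) := by
  rw [MT_apply, map_smul, map_sum, ← sum_iv (fun i => UnitAddTorus.mFourierBasis.repr f (sh i n))]
  simp only [lp.coeFn_smul, Pi.smul_apply, smul_eq_mul]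
  congr 1
  rw [lp.coeFn_sum, Finset.sum_apply]
  exact Finset.sum_congr rfl fun i _ => UT_coeff i f n

lemma norm_sq_tsum (f : HT) :
    ENNReal.ofReal (‖f‖ ^ 2) =
      ∑' n, ENNReal.ofReal (‖UnitAddTorus.mFourierBasis.repr f n‖ ^ 2) := by
  have h := lp.hasSum_norm (p := 2) (by norm_num) (UnitAddTorus.mFourierBasis.repr f)
  simp only [ENNReal.toReal_ofNat, Real.rpow_two, LinearIsometryEquiv.norm_map] at h
  rw [← ENNReal.ofReal_tsum_of_nonneg (fun n => sq_nonneg _) h.summable, h.tsum_eq]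

/-- the spectral gap -/
lemma gap (f : HT) (h0 : UnitAddTorus.mFourierBasis.repr f 0 = 0) :
    ‖MT f‖ ≤ 7 / 8 * ‖f‖ := by
  have h1 : ENNReal.ofReal (‖MT f‖ ^ 2) ≤ ENNReal.ofReal ((7 / 8 * ‖f‖) ^ 2) := by
    rw [norm_sq_tsum]
    have h2 : ∀ n, ENNReal.ofReal (‖UnitAddTorus.mFourierBasis.repr (MT f) n‖ ^ 2) =
        ENNReal.ofReal (1 / 16) *
          ENNReal.ofReal (‖∑ i, UnitAddTorus.mFourierBasis.repr f (sh i n)‖ ^ 2) := by
      intro n
      rw [MT_coeff, norm_mul, mul_pow, ← ENNReal.ofReal_mul (by norm_num)]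
      congr 2
      norm_num
    simp_rw [h2]
    rw [ENNReal.tsum_mul_left, mul_pow, ENNReal.ofReal_mul (by norm_num), norm_sq_tsum f]
    refine (mul_le_mul_right (schur _ h0) _).trans ?_
    rw [← mul_assoc, ← ENNReal.ofReal_mul (by norm_num)]
    norm_num
  have h3 := (ENNReal.ofReal_le_ofReal_iff (by positivity)).1 h1
  exact (sq_le_sq₀ (norm_nonneg _) (by positivity)).1 h3

lemma MT_coeff_zero (f : HT) :
    UnitAddTorus.mFourierBasis.repr (MT f) 0 = UnitAddTorus.mFourierBasis.repr f 0 := by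
  rw [MT_coeff]
  simp only [sh_zero]
  simp

lemma pow_gap (k : ℕ) (f : HT) (h0 : UnitAddTorus.mFourierBasis.repr f 0 = 0) :
    ‖(MT ^ k) f‖ ≤ (7 / 8) ^ k * ‖f‖ ∧ UnitAddTorus.mFourierBasis.repr ((MT ^ k) f) 0 = 0 := by
  induction k with
  | zero => simpa using h0
  | succ k ih =>
    rw [pow_succ']
    change ‖MT ((MT ^ k) f)‖ ≤ _ ∧ UnitAddTorus.mFourierBasis.repr (MT ((MT ^ k) f)) 0 = 0
    refine ⟨(gap _ ih.2).trans ?_, by rw [MT_coeff_zero]; exact ih.2⟩
    rw [pow_succ']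
    nlinarith [ih.1]

/-- the constant function `1` in `L²` of the torus -/
noncomputable def e0 : HT := UnitAddTorus.mFourierLp 2 0

lemma norm_e0 : ‖e0‖ = 1 := UnitAddTorus.orthonormal_mFourier.1 0

lemma MT_e0 : MT e0 = e0 := by
  rw [MT_apply]
  have : ∀ i, UT i e0 = e0 := fun i => by rw [e0, UT_e, sh_zero]
  simp only [this]
  simp [smul_smul]
  rw [← Nat.cast_smul_eq_nsmul ℂ, smul_smul]
  norm_num

lemma MTk_e0 (k : ℕ) : (MT ^ k) e0 = e0 := by
  induction k with
  | zero => rfl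
  | succ k ih =>
    rw [pow_succ]
    change (MT ^ k) (MT e0) = e0
    rw [MT_e0, ih]

lemma MTk_bound (k : ℕ) : ‖MT ^ k - rankOne ℂ e0 e0‖ ≤ 2 * (7 / 8) ^ k := by
  refine ContinuousLinearMap.opNorm_le_bound _ (by positivity) fun f => ?_
  have hc : inner ℂ e0 f = UnitAddTorus.mFourierBasis.repr f 0 := by
    rw [HilbertBasis.repr_apply_apply, UnitAddTorus.coe_mFourierBasis]; rfl
  have hz : UnitAddTorus.mFourierBasis.repr (f - rankOne ℂ e0 e0 f) 0 = 0 := by
    rw [HilbertBasis.repr_apply_apply, UnitAddTorus.coe_mFourierBasis]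
    change inner ℂ e0 (f - rankOne ℂ e0 e0 f) = 0
    rw [rankOne_apply, inner_sub_right, inner_smul_right, inner_self_eq_norm_sq_to_K, norm_e0]
    simp
  have he : (MT ^ k - rankOne ℂ e0 e0) f = (MT ^ k) (f - rankOne ℂ e0 e0 f) := by
    rw [map_sub, rankOne_apply, map_smul, MTk_e0]
    rfl
  rw [he]
  refine (pow_gap k _ hz).1.trans ?_
  have h1 : ‖f - rankOne ℂ e0 e0 f‖ ≤ 2 * ‖f‖ := by
    refine (norm_sub_le _ _).trans ?_
    have : ‖rankOne ℂ e0 e0 f‖ ≤ ‖f‖ := by
      refine (ContinuousLinearMap.le_opNorm _ _).trans ?_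
      rw [norm_rankOne, norm_e0]
      simp
    linarith
  calc (7 / 8 : ℝ) ^ k * ‖f - rankOne ℂ e0 e0 f‖ ≤ (7 / 8) ^ k * (2 * ‖f‖) := by gcongr
    _ = 2 * (7 / 8) ^ k * ‖f‖ := by ring

lemma MTk_tendsto : Tendsto (fun k => MT ^ k) atTop (𝓝 (rankOne ℂ e0 e0)) := by
  rw [tendsto_iff_norm_sub_tendsto_zero]
  refine squeeze_zero (fun _ => norm_nonneg _) MTk_bound ?_
  have := (tendsto_pow_atTop_nhds_zero_of_lt_one (r := (7 / 8 : ℝ)) (by norm_num)
    (by norm_num)).const_mul 2
  simpa using this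

end Pool.Agent.V1175.SE
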