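import Pool.Agent.V1175.SE.Alg
import Pool.Agent.V1175.SE.Torus
import Pool.Agent.V1175.SE.Iso

set_option autoImplicit false

open scoped ENNReal NNReal
open MeasureTheory InnerProductSpace Filter Topology ContinuousLinearMap

namespace Pool.Agent.V1175.SE

attribute [local instance] instMeasureSpaceUnitAddCircle haarInst probInst

/-! ### the averaging operator has bounded support expansion -/

lemma UT_UT (i : Fin 4) (f : HT) : UT (iv i) (UT i f) = f := by
  refine Lp.ext ?_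
  refine (UT_ae (iv i) _).trans ?_
  have h1 := (tm_mp (iv i)).quasiMeasurePreserving.ae_eq (UT_ae i f)
  refine h1.trans ?_
  refine Filter.Eventually.of_forall fun z => ?_
  simp only [Function.comp_apply]
  rw [tm_tm]

lemma UT_adj (i : Fin 4) :
    adjoint (UT i).toContinuousLinearMap = (UT (iv i)).toContinuousLinearMap := by
  symm
  rw [eq_adjoint_iff]
  intro x y
  change inner ℂ (UT (iv i) x) y = inner ℂ x (UT i y)
  rw [← (UT (iv i)).inner_map_map x (UT i y), UT_UT]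

lemma UT_SEx (i : Fin 4) : SEx 1 (UT i).toContinuousLinearMap := by
  intro f
  have hm : MeasurableSet (Function.support (f : TT → ℂ)) :=
    measurableSet_support (Lp.stronglyMeasurable f).measurable
  have h1 : (volume : Measure TT) (Function.support (UT i f)) ≤
      volume (tm i ⁻¹' (Function.support f)) := by
    refine measure_mono_ae ?_
    filter_upwards [UT_ae i f] with x hx hs
    intro hc
    exact hs (by rw [hx]; exact hc)
  rw [(tm_mp i).measure_preimage hm.nullMeasurableSet] at h1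
  simpa using h1

lemma UT_Bs (i : Fin 4) : Bs (UT i).toContinuousLinearMap :=
  ⟨1, UT_SEx i, by rw [UT_adj]; exact UT_SEx _⟩

lemma MT_Bs : Bs MT := (Bs.sum _ fun i _ => UT_Bs i).smul _

/-! ### transport to a set of finite measure -/

section transport

variable {X : Type*} [MeasurableSpace X] {μ : Measure X}

/-- data of an isomorphism (mod null sets) between a piece of `X` and the torus -/
structure Piece (μ : Measure X) (C : Set X) where
  m : ℝ≥0
  hm : m ≠ 0
  p : X → TT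
  r : TT → X
  hC : MeasurableSet C
  hp : MeasurePreserving p (μ.restrict C) ((m : ℝ≥0∞) • (volume : Measure TT))
  hr : MeasurePreserving r ((m : ℝ≥0∞) • (volume : Measure TT)) (μ.restrict C)
  hrp : ∀ᵐ x ∂(μ.restrict C), r (p x) = x

variable {C : Set X} (D : Piece μ C) (A : Set X)

lemma Piece.K1 (hAC : A ⊆ C) :
    (μ.restrict A).map D.p ≤ ((D.m : ℝ≥0) : ℝ≥0∞) • (volume : Measure TT) := by
  rw [← D.hp.map_eq]
  exact Measure.map_mono (Measure.restrict_mono hAC le_rfl) D.hp.measurable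

lemma Piece.K2 : ((volume : Measure TT).restrict (D.r ⁻¹' A)).map D.r ≤
    ((D.m⁻¹ : ℝ≥0) : ℝ≥0∞) • μ := by
  have h1 : ((volume : Measure TT).restrict (D.r ⁻¹' A)).map D.r ≤ (volume : Measure TT).map D.r :=
    Measure.map_mono Measure.restrict_le_self D.hr.measurable
  refine h1.trans ?_
  have h2 : (volume : Measure TT).map D.r = ((D.m⁻¹ : ℝ≥0) : ℝ≥0∞) • μ.restrict C := by
    rw [← D.hr.map_eq, Measure.map_smul, smul_smul, ← ENNReal.coe_mul, inv_mul_cancel₀ D.hm]
    simp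
  rw [h2]
  intro s
  simp only [Measure.smul_apply, smul_eq_mul]
  gcongr
  exact Measure.restrict_le_self

/-- the operator `f ↦ 1_A (f ∘ p)` -/
noncomputable def Piece.V (hA : MeasurableSet A) (hAC : A ⊆ C) : HT →L[ℂ] Lp ℂ 2 μ :=
  pb D.p A D.m D.hp.measurable hA (D.K1 A hAC)

/-- the operator `ξ ↦ (1_A ξ) ∘ r` -/
noncomputable def Piece.W (hA : MeasurableSet A) : Lp ℂ 2 μ →L[ℂ] HT :=
  pb D.r (D.r ⁻¹' A) D.m⁻¹ D.hr.measurable (D.hr.measurable hA) (D.K2 A)

lemma Piece.inner_V (hA : MeasurableSet A) (hAC : A ⊆ C) (f : HT) (ξ : Lp ℂ 2 μ) :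
    inner ℂ (D.V A hA hAC f) ξ = (((D.m : ℝ≥0) : ℝ) : ℂ) * inner ℂ f (D.W A hA ξ) := by
  have hmC : (0 : ℝ≥0∞) ≠ D.m := by
    intro h; exact D.hm (by exact_mod_cast h.symm)
  rw [L2.inner_def, L2.inner_def]
  -- right side
  have hW : (D.W A hA ξ : TT → ℂ) =ᵐ[volume] (D.r ⁻¹' A).indicator (ξ ∘ D.r) :=
    pb_coe _ _ _ _ _ _ _
  have hV : (D.V A hA hAC f : X → ℂ) =ᵐ[μ] A.indicator (f ∘ D.p) := pb_coe _ _ _ _ _ _ _
  set Φ : TT → ℂ := fun y => inner ℂ (f y) ((D.r ⁻¹' A).indicator (ξ ∘ D.r) y) with hΦ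
  have e1 : ∫ y, inner ℂ (f y) ((D.W A hA ξ : TT → ℂ) y) ∂(volume : Measure TT) =
      ∫ y, Φ y ∂volume := by
    refine integral_congr_ae ?_
    filter_upwards [hW] with y hy
    rw [hy]
  have e2 : (((D.m : ℝ≥0) : ℝ) : ℂ) * ∫ y, Φ y ∂(volume : Measure TT) =
      ∫ y, Φ y ∂((D.m : ℝ≥0∞) • (volume : Measure TT)) := by
    rw [integral_smul_measure]
    simp
  rw [e1, e2, ← D.hp.map_eq]
  have hΦm : AEStronglyMeasurable Φ (Measure.map D.p (μ.restrict C)) := by
    rw [D.hp.map_eq]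
    have h1 : AEStronglyMeasurable (f : TT → ℂ) ((D.m : ℝ≥0∞) • (volume : Measure TT)) :=
      (Lp.stronglyMeasurable f).aestronglyMeasurable
    have h2 : StronglyMeasurable ((D.r ⁻¹' A).indicator ((ξ : X → ℂ) ∘ D.r)) :=
      ((Lp.stronglyMeasurable ξ).comp_measurable D.hr.measurable).indicator
        (D.hr.measurable hA)
    exact h1.inner h2.aestronglyMeasurable
  rw [integral_map D.hp.measurable.aemeasurable hΦm]
  -- left side
  have e3 : ∫ x, inner ℂ ((D.V A hA hAC f : X → ℂ) x) (ξ x) ∂μ =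
      ∫ x, A.indicator (fun x => inner ℂ (f (D.p x)) (ξ x)) x ∂μ := by
    refine integral_congr_ae ?_
    filter_upwards [hV] with x hx
    rw [hx]
    by_cases hxA : x ∈ A
    · rw [Set.indicator_of_mem hxA, Set.indicator_of_mem hxA]; rfl
    · rw [Set.indicator_of_notMem hxA, Set.indicator_of_notMem hxA, inner_zero_left]
  rw [e3]
  have e4 : ∫ x, A.indicator (fun x => inner ℂ (f (D.p x)) (ξ x)) x ∂μ =
      ∫ x in C, A.indicator (fun x => inner ℂ (f (D.p x)) (ξ x)) x ∂μ := by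
    rw [integral_indicator hA, setIntegral_indicator hA, Set.inter_eq_self_of_subset_right hAC]
  rw [e4]
  refine integral_congr_ae ?_
  filter_upwards [D.hrp] with x hx
  rw [hΦ]
  simp only [Set.indicator, Set.mem_preimage, Function.comp_apply, hx]
  by_cases hxA : x ∈ A
  · simp [hxA, hx]
  · simp [hxA, hx]

lemma Piece.adj_V (hA : MeasurableSet A) (hAC : A ⊆ C) :
    adjoint (D.V A hA hAC) = (((D.m : ℝ≥0) : ℝ) : ℂ) • D.W A hA := by
  symm
  rw [eq_adjoint_iff]
  intro ξ f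
  rw [← inner_conj_symm, ← inner_conj_symm ξ, D.inner_V A hA hAC f ξ]
  change (starRingEnd ℂ) (inner ℂ f ((((D.m : ℝ≥0) : ℝ) : ℂ) • D.W A hA ξ)) = _
  rw [inner_smul_right]

lemma Piece.Bs_V (hA : MeasurableSet A) (hAC : A ⊆ C) : Bs (D.V A hA hAC) := by
  refine Bs_of (pb_SEx _ _ _ _ _ _) ?_ (d := D.m⁻¹)
  rw [D.adj_V]
  exact (pb_SEx _ _ _ _ _ _).smul _

lemma Piece.V_e0 (hA : MeasurableSet A) (hAC : A ⊆ C) (hfin : μ A ≠ ∞) :
    D.V A hA hAC e0 = indicatorConstLp 2 hA hfin (1 : ℂ) := by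
  refine Lp.ext ?_
  refine (pb_coe _ _ _ _ _ _ _).trans ?_
  refine Filter.EventuallyEq.trans ?_ (indicatorConstLp_coeFn).symm
  have h1 : (e0 : TT → ℂ) =ᵐ[volume] fun _ => 1 := by
    refine (UnitAddTorus.coeFn_mFourierLp 2 0).trans ?_
    refine Filter.Eventually.of_forall fun z => ?_
    rw [UnitAddTorus.mFourier_zero]; rfl
  exact pb_ae _ _ _ D.hp.measurable hA (D.K1 A hAC) h1

end transport

end Pool.Agent.V1175.SE
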