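import Pool.Agent.V1175.SE.Link
import Pool.Agent.V1175.SE.Dense

set_option autoImplicit false

open scoped ENNReal NNReal
open MeasureTheory InnerProductSpace Filter Topology ContinuousLinearMap

namespace Pool.Agent.V1175.SE

attribute [local instance] instMeasureSpaceUnitAddCircle haarInst probInst

variable {X : Type*} [MeasurableSpace X] {μ : Measure X}

/-- the closure of the operators of bounded support expansion, as a closed subspace -/
noncomputable def CuS (μ : Measure X) : Submodule ℂ (Lp ℂ 2 μ →L[ℂ] Lp ℂ 2 μ) :=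
  Submodule.topologicalClosure
    { carrier := {a | Bs a}
      add_mem' := fun ha hb => Bs.add ha hb
      zero_mem' := Bs.zero
      smul_mem' := fun c _ ha => Bs.smul ha c }

lemma CuS_closed (μ : Measure X) : IsClosed (CuS μ : Set (Lp ℂ 2 μ →L[ℂ] Lp ℂ 2 μ)) :=
  Submodule.isClosed_topologicalClosure _

lemma CuS_of_Bs {a : Lp ℂ 2 μ →L[ℂ] Lp ℂ 2 μ} (ha : Bs a) : a ∈ CuS μ :=
  Submodule.le_topologicalClosure _ ha

lemma coe_CuS (μ : Measure X) :
    (CuS μ : Set (Lp ℂ 2 μ →L[ℂ] Lp ℂ 2 μ)) = closure {a | Bs a} := rfl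

/-- rank one operators between indicators of subsets of a piece -/
lemma piece_rankOne {C : Set X} (D : Piece μ C) (A B : Set X) (hA : MeasurableSet A)
    (hB : MeasurableSet B) (hAC : A ⊆ C) (hBC : B ⊆ C) (hAf : μ A ≠ ∞) (hBf : μ B ≠ ∞) :
    rankOne ℂ (indicatorConstLp 2 hA hAf (1 : ℂ)) (indicatorConstLp 2 hB hBf (1 : ℂ)) ∈ CuS μ := by
  rw [← D.V_e0 A hA hAC hAf, ← D.V_e0 B hB hBC hBf]
  have h1 : rankOne ℂ (D.V A hA hAC e0) (D.V B hB hBC e0) =
      (D.V A hA hAC ∘L rankOne ℂ e0 e0) ∘L adjoint (D.V B hB hBC) := by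
    rw [comp_rankOne, rankOne_comp, adjoint_adjoint]
  rw [h1]
  have h2 : Tendsto (fun k => (D.V A hA hAC ∘L (MT ^ k)) ∘L adjoint (D.V B hB hBC)) atTop
      (𝓝 ((D.V A hA hAC ∘L rankOne ℂ e0 e0) ∘L adjoint (D.V B hB hBC))) := by
    have hc : Continuous fun T : HT →L[ℂ] HT =>
        (D.V A hA hAC ∘L T) ∘L adjoint (D.V B hB hBC) := by fun_prop
    exact (hc.tendsto _).comp MTk_tendsto
  refine (CuS_closed μ).mem_of_tendsto h2 (Filter.Eventually.of_forall fun k => ?_)
  exact CuS_of_Bs (((D.Bs_V A hA hAC).comp (MT_Bs.pow k)).comp (D.Bs_V B hB hBC).adj)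

instance nbi : (𝓝[≠] (0 : UnitAddCircle)).NeBot := by
  rw [← mem_closure_iff_nhdsWithin_neBot]
  have : Dense ({(0 : UnitAddCircle)}ᶜ) := by
    rw [dense_compl_singleton_iff_not_open]
    intro h
    have h1 : IsOpen ((fun x : ℝ => (x : UnitAddCircle)) ⁻¹' {0}) :=
      h.preimage (AddCircle.continuous_mk' 1)
    have h2 : (0 : ℝ) ∈ ((fun x : ℝ => (x : UnitAddCircle)) ⁻¹' {0}) := by simp
    rw [Metric.isOpen_iff] at h1
    obtain ⟨ε, hε, hb⟩ := h1 0 h2
    have h3 : min (ε / 2) (1 / 2) ∈ Metric.ball (0 : ℝ) ε := by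
      rw [Metric.mem_ball, Real.dist_eq, sub_zero, abs_of_pos (by positivity)]
      exact lt_of_le_of_lt (min_le_left _ _) (by linarith)
    have h4 := hb h3
    rw [Set.mem_preimage, Set.mem_singleton_iff, AddCircle.coe_eq_zero_iff] at h4
    obtain ⟨n, hn⟩ := h4
    have h5 : (0 : ℝ) < min (ε / 2) (1 / 2) := by positivity
    have h6 : min (ε / 2) (1 / 2) ≤ (1 / 2 : ℝ) := min_le_right _ _
    rw [← hn] at h5 h6
    simp only [zsmul_eq_mul, mul_one] at h5 h6
    have h7 : (0 : ℤ) < n := by exact_mod_cast h5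
    have h8 : (1 : ℝ) ≤ n := by exact_mod_cast h7
    linarith
  exact this 0
instance ns1 : NullSingletonClass (AddCircle.haarAddCircle : Measure UnitAddCircle) := inferInstance
instance ns2 : NullSingletonClass (volume : Measure UnitAddCircle) := inferInstanceAs (NullSingletonClass AddCircle.haarAddCircle)

/-- pieces exist in atomless standard Borel spaces -/
lemma exists_piece [StandardBorelSpace X] [NullSingletonClass μ] (C : Set X)
    (hC : MeasurableSet C) (h0 : μ C ≠ 0) (hf : μ C ≠ ∞) : Nonempty (Piece μ C) := by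
  set m : ℝ≥0 := (μ C).toNNReal with hm
  have hmC : (m : ℝ≥0∞) = μ C := ENNReal.coe_toNNReal hf
  have hm0 : m ≠ 0 := by
    intro h
    apply h0
    rw [← hmC, h]; rfl
  set P : Measure X := ((m⁻¹ : ℝ≥0) : ℝ≥0∞) • μ.restrict C with hP
  have hPp : IsProbabilityMeasure P := by
    refine ⟨?_⟩
    rw [hP, Measure.smul_apply, Measure.restrict_apply_univ, ← hmC, smul_eq_mul,
      ← ENNReal.coe_mul, inv_mul_cancel₀ hm0]
    rfl
  have hPa : NullSingletonClass P := by
    refine ⟨fun x => ?_⟩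
    rw [hP, Measure.smul_apply, measure_singleton, smul_zero]
  obtain ⟨p, r, hp, hr, hrp⟩ := iso_two P (volume : Measure TT)
  have hPμ : (m : ℝ≥0∞) • P = μ.restrict C := by
    rw [hP, smul_smul, ← ENNReal.coe_mul, mul_inv_cancel₀ hm0]
    simp
  refine ⟨⟨m, hm0, p, r, hC, ⟨hp.measurable, ?_⟩, ⟨hr.measurable, ?_⟩, ?_⟩⟩
  · rw [← hPμ, Measure.map_smul, hp.map_eq]
  · rw [← hPμ, Measure.map_smul, hr.map_eq]
  · rw [← hPμ]
    exact (Measure.smul_absolutelyContinuous : (m : ℝ≥0∞) • P ≪ P).ae_le hrp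

/-- **All compact operators on `L²` of an atomless standard Borel space are norm limits of
operators of bounded support expansion.** -/
theorem compact_mem_CuS [StandardBorelSpace X] [NullSingletonClass μ]
    (T : Lp ℂ 2 μ →L[ℂ] Lp ℂ 2 μ) (hT : IsCompactOperator T) : T ∈ CuS μ := by
  refine compact_mem _ (CuS_closed μ) (fun x y => ?_) T hT
  refine rankOne_mem _ (CuS_closed μ) (fun A B hA hB hAf hBf => ?_) x y
  by_cases h0 : μ (A ∪ B) = 0
  · have hA0 : μ A = 0 := measure_mono_null Set.subset_union_left h0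
    have : indicatorConstLp 2 hA hAf (1 : ℂ) = 0 := by
      refine Lp.ext ?_
      refine indicatorConstLp_coeFn.trans ?_
      refine Filter.EventuallyEq.trans ?_ (Lp.coeFn_zero _ _ _).symm
      exact indicator_meas_zero hA0
    rw [this, map_zero]
    exact (CuS μ).zero_mem
  · have hfin : μ (A ∪ B) ≠ ∞ := ((measure_union_le _ _).trans_lt
      (ENNReal.add_lt_top.2 ⟨hAf.lt_top, hBf.lt_top⟩)).ne
    obtain ⟨D⟩ := exists_piece (μ := μ) (A ∪ B) (hA.union hB) h0 hfin
    exact piece_rankOne D A B hA hB Set.subset_union_left Set.subset_union_right hAf hBf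

end Pool.Agent.V1175.SE
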