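import Pool.Agent.V1175.SE.Comb

set_option autoImplicit false

open scoped ENNReal

namespace Pool.Agent.V1175.SE

lemma pt_bound (c : (Fin 2 → ℤ) → ℂ) (h0 : c 0 = 0) (n : Fin 2 → ℤ) :
    ‖∑ i, c (sh i n)‖ ^ 2 ≤ (7 / 2) * ∑ i, wt (sh i n) n * ‖c (sh i n)‖ ^ 2 := by
  by_cases hn : n = 0
  · subst hn
    simp only [sh_zero, h0]
    simp
  · have h1 : ‖∑ i, c (sh i n)‖ ^ 2 ≤ (∑ i, ‖c (sh i n)‖) ^ 2 := by
      gcongr
      exact norm_sum_le _ _
    refine h1.trans ?_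
    have h2 : (∑ i, ‖c (sh i n)‖) ^ 2 ≤
        (∑ i, wt n (sh i n)) * ∑ i, wt (sh i n) n * ‖c (sh i n)‖ ^ 2 := by
      refine Finset.sum_sq_le_sum_mul_sum_of_sq_eq_mul _ (fun i _ => (wt_pos _ _).le)
        (fun i _ => mul_nonneg (wt_pos _ _).le (sq_nonneg _)) (fun i _ => ?_)
      rw [← mul_assoc, wt_mul, one_mul]
    refine h2.trans ?_
    refine mul_le_mul_of_nonneg_right (wt_sum n hn) ?_
    exact Finset.sum_nonneg fun i _ => mul_nonneg (wt_pos _ _).le (sq_nonneg _)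

lemma sum_iv {M : Type*} [AddCommMonoid M] (f : Fin 4 → M) : ∑ i, f (iv i) = ∑ i, f i := by
  let e : Fin 4 ≃ Fin 4 := ⟨iv, iv, iv_iv, iv_iv⟩
  exact Equiv.sum_comp e f

lemma schur (c : (Fin 2 → ℤ) → ℂ) (h0 : c 0 = 0) :
    ∑' n, ENNReal.ofReal (‖∑ i, c (sh i n)‖ ^ 2) ≤
      ENNReal.ofReal (49 / 4) * ∑' n, ENNReal.ofReal (‖c n‖ ^ 2) := by
  calc ∑' n, ENNReal.ofReal (‖∑ i, c (sh i n)‖ ^ 2)
      ≤ ∑' n, ENNReal.ofReal (7 / 2) * ∑ i, ENNReal.ofReal (wt (sh i n) n * ‖c (sh i n)‖ ^ 2) := by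
        refine ENNReal.tsum_le_tsum fun n => ?_
        rw [← ENNReal.ofReal_sum_of_nonneg
          (fun i _ => mul_nonneg (wt_pos _ _).le (sq_nonneg _)), ← ENNReal.ofReal_mul (by norm_num)]
        exact ENNReal.ofReal_le_ofReal (pt_bound c h0 n)
    _ = ENNReal.ofReal (7 / 2) * ∑ i, ∑' n, ENNReal.ofReal (wt (sh i n) n * ‖c (sh i n)‖ ^ 2) := by
        rw [ENNReal.tsum_mul_left]
        congr 1
        exact Summable.tsum_finsetSum fun i _ => ENNReal.summable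
    _ = ENNReal.ofReal (7 / 2) * ∑ i, ∑' m, ENNReal.ofReal (wt m (sh (iv i) m) * ‖c m‖ ^ 2) := by
        congr 1
        refine Finset.sum_congr rfl fun i _ => ?_
        have := Equiv.tsum_eq (she i)
          (fun m => ENNReal.ofReal (wt m (sh (iv i) m) * ‖c m‖ ^ 2))
        rw [← this]
        refine tsum_congr fun n => ?_
        change _ = ENNReal.ofReal (wt (sh i n) (sh (iv i) (sh i n)) * ‖c (sh i n)‖ ^ 2)
        rw [sh_sh]
    _ = ENNReal.ofReal (7 / 2) * ∑' m, ENNReal.ofReal ((∑ i, wt m (sh i m)) * ‖c m‖ ^ 2) := by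
        congr 1
        rw [← Summable.tsum_finsetSum fun i _ => ENNReal.summable]
        refine tsum_congr fun m => ?_
        rw [sum_iv (fun i => ENNReal.ofReal (wt m (sh i m) * ‖c m‖ ^ 2)),
          ← ENNReal.ofReal_sum_of_nonneg
          (fun i _ => mul_nonneg (wt_pos _ _).le (sq_nonneg _)), Finset.sum_mul]
    _ ≤ ENNReal.ofReal (7 / 2) * ∑' m, ENNReal.ofReal (7 / 2) * ENNReal.ofReal (‖c m‖ ^ 2) := by
        gcongr with m
        rw [← ENNReal.ofReal_mul (by norm_num)]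
        refine ENNReal.ofReal_le_ofReal ?_
        by_cases hm : m = 0
        · subst hm
          simp [h0]
        · exact mul_le_mul_of_nonneg_right (wt_sum m hm) (sq_nonneg _)
    _ = ENNReal.ofReal (49 / 4) * ∑' n, ENNReal.ofReal (‖c n‖ ^ 2) := by
        rw [ENNReal.tsum_mul_left, ← mul_assoc, ← ENNReal.ofReal_mul (by norm_num)]
        norm_num

end Pool.Agent.V1175.SE
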