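import Pool.Agent.V1175.SE.Statement

set_option autoImplicit false

open scoped ENNReal NNReal
open MeasureTheory ContinuousLinearMap

namespace Pool.Agent.V1175.SE

variable {X : Type*} [MeasurableSpace X]

lemma he_mul (μ : Measure X) {a b : Op μ} (ha : ∃ c : ℝ≥0, HasExpansion c a)
    (hb : ∃ c : ℝ≥0, HasExpansion c b) : ∃ c : ℝ≥0, HasExpansion c (a * b) :=
  (hasExpansion_iff _).2 (((hasExpansion_iff _).1 ha).comp ((hasExpansion_iff _).1 hb))

lemma he_add (μ : Measure X) {a b : Op μ} (ha : ∃ c : ℝ≥0, HasExpansion c a)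
    (hb : ∃ c : ℝ≥0, HasExpansion c b) : ∃ c : ℝ≥0, HasExpansion c (a + b) :=
  (hasExpansion_iff _).2 (((hasExpansion_iff _).1 ha).add ((hasExpansion_iff _).1 hb))

lemma he_alg (μ : Measure X) (r : ℂ) :
    ∃ c : ℝ≥0, HasExpansion c (algebraMap ℂ (Op μ) r) := by
  rw [Algebra.algebraMap_eq_smul_one]
  exact (hasExpansion_iff _).2 ((Bs.one (μ := μ)).smul r)

lemma he_star (μ : Measure X) {a : Op μ} (ha : ∃ c : ℝ≥0, HasExpansion c a) :
    ∃ c : ℝ≥0, HasExpansion c (star a) :=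
  (hasExpansion_iff _).2 (((hasExpansion_iff _).1 ha).adj)

/-- The *-algebra of the operators of bounded support expansion. -/
noncomputable def BsAlg (μ : Measure X) : StarSubalgebra ℂ (Op μ) where
  carrier := {a | ∃ c : ℝ≥0, HasExpansion c a}
  mul_mem' := he_mul μ
  add_mem' := he_add μ
  algebraMap_mem' := he_alg μ
  star_mem' := he_star μ

/-- The C*-algebra `C*_u(X, V_μ)`: the norm closure of the *-algebra of the operators of bounded
support expansion. -/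
noncomputable def CuAlg (μ : Measure X) : StarSubalgebra ℂ (Op μ) := (BsAlg μ).topologicalClosure

/-- `Φ` respects sums and scalar multiples on `C*_u(X, V_μ)`. -/
def Lin {Y : Type*} [MeasurableSpace Y] {μ : Measure X} {ν : Measure Y} (Φ : Op μ → Op ν) : Prop :=
  (∀ a ∈ CstarU μ, ∀ b ∈ CstarU μ, Φ (a + b) = Φ a + Φ b) ∧
    ∀ (c : ℂ), ∀ a ∈ CstarU μ, Φ (c • a) = c • Φ a

/-- `Φ` respects products on `C*_u(X, V_μ)`. -/
def Mult {Y : Type*} [MeasurableSpace Y] {μ : Measure X} {ν : Measure Y} (Φ : Op μ → Op ν) : Prop :=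
  ∀ a ∈ CstarU μ, ∀ b ∈ CstarU μ, Φ (a * b) = Φ a * Φ b

/-- `Φ` respects adjoints on `C*_u(X, V_μ)`. -/
def PresAdj {Y : Type*} [MeasurableSpace Y] {μ : Measure X} {ν : Measure Y}
    (Φ : Op μ → Op ν) : Prop :=
  ∀ a ∈ CstarU μ, Φ (adj a) = adj (Φ a)

/-- `Φ` restricts to a *-isomorphism of `C*_u(X, V_μ)` onto `C*_u(Y, V_ν)` (its values at other
operators play no role). -/
def IsStarIso {Y : Type*} [MeasurableSpace Y] {μ : Measure X} {ν : Measure Y}
    (Φ : Op μ → Op ν) : Prop :=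
  Set.BijOn Φ (CstarU μ) (CstarU ν) ∧ Lin Φ ∧ Mult Φ ∧ PresAdj Φ

/-- The unitary operators from `L²(X, μ)` onto `L²(Y, ν)`. -/
abbrev Uni {Y : Type*} [MeasurableSpace Y] (μ : Measure X) (ν : Measure Y) : Type _ :=
  HSp μ ≃ₗᵢ[ℂ] HSp ν

/-- The *-isomorphism `Φ` is spatially implemented: there is a unitary `U` with
`Φ(a) = U a U*`, that is `Φ(a) U = U a`, for all `a`. -/
def Spatial {Y : Type*} [MeasurableSpace Y] {μ : Measure X} {ν : Measure Y}
    (Φ : Op μ → Op ν) : Prop :=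
  ∃ U : Uni μ ν, ∀ a ∈ CstarU μ, ∀ x : HSp μ, Φ a (U x) = U (a x)

end Pool.Agent.V1175.SE
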